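import Mathlib

set_option autoImplicit false

namespace Pool.Agent.H637R2.Leo

open Polynomial Finset

/-- the polynomial `∏ (1 - b_i Y)^{m_i}` -/
noncomputable def F {n : ℕ} (b : Fin n → ℤ) (m : Fin n → ℕ) : ℤ[X] :=
  ∏ i, (1 - C (b i) * X) ^ (m i)

/-- the weighted power sums `∑ m_i b_i^j` -/
def Q {n : ℕ} (b : Fin n → ℤ) (m : Fin n → ℤ) (j : ℕ) : ℤ := ∑ i, m i * b i ^ j

/-- logarithmic derivative relation `F' = -F H` in `ℤ⟦Y⟧`. -/
def LD (f h : PowerSeries ℤ) : Prop := PowerSeries.derivative ℤ f = -(f * h)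

lemma LD_one : LD 1 0 := by simp [LD]

lemma LD_mul {f g h k : PowerSeries ℤ} (hf : LD f h) (hg : LD g k) : LD (f * g) (h + k) := by
  unfold LD at *
  rw [Derivation.leibniz, hf, hg]
  simp only [smul_eq_mul]
  ring

lemma LD_pow {f h : PowerSeries ℤ} (hf : LD f h) (m : ℕ) : LD (f ^ m) (m • h) := by
  induction m with
  | zero => simpa using LD_one
  | succ m ih =>
    rw [pow_succ, succ_nsmul]
    exact LD_mul ih hf

lemma LD_prod {ι : Type*} (s : Finset ι) (f h : ι → PowerSeries ℤ) (hf : ∀ i ∈ s, LD (f i) (h i)) :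
    LD (∏ i ∈ s, f i) (∑ i ∈ s, h i) := by
  classical
  induction s using Finset.induction_on with
  | empty => simpa using LD_one
  | insert a s ha ih =>
    rw [Finset.prod_insert ha, Finset.sum_insert ha]
    exact LD_mul (hf _ (Finset.mem_insert_self _ _))
      (ih fun i hi => hf i (Finset.mem_insert_of_mem hi))

lemma LD_lin (b : ℤ) : LD (((1 - C b * X : ℤ[X]) : PowerSeries ℤ))
    (PowerSeries.mk fun j => b ^ (j + 1)) := by
  unfold LD
  ext j
  rw [PowerSeries.coeff_derivative]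
  have h1 : ((1 - C b * X : ℤ[X]) : PowerSeries ℤ) = 1 - PowerSeries.C b * PowerSeries.X := by
    rw [Polynomial.coe_sub, Polynomial.coe_one, Polynomial.coe_mul, Polynomial.coe_C,
      Polynomial.coe_X]
  rw [h1]
  have h2 : (1 - PowerSeries.C b * PowerSeries.X) * (PowerSeries.mk fun j => b ^ (j + 1))
      = PowerSeries.C b := by
    ext k
    rw [sub_mul, one_mul, map_sub, PowerSeries.coeff_mk]
    rw [mul_assoc, PowerSeries.coeff_C_mul]
    cases k with
    | zero => simp
    | succ k =>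
      rw [PowerSeries.coeff_succ_X_mul, PowerSeries.coeff_mk, PowerSeries.coeff_C]
      simp
      ring
  rw [h2]
  cases j with
  | zero => simp [PowerSeries.coeff_one]
  | succ j =>
    simp only [map_sub, map_neg, PowerSeries.coeff_C]
    rw [PowerSeries.coeff_one, PowerSeries.coeff_C_mul, PowerSeries.coeff_X]
    simp

lemma LD_F {n : ℕ} (b : Fin n → ℤ) (m : Fin n → ℕ) :
    LD ((F b m : ℤ[X]) : PowerSeries ℤ) (PowerSeries.mk fun j => Q b (fun i => (m i : ℤ)) (j + 1)) := by
  have h : ((F b m : ℤ[X]) : PowerSeries ℤ) = ∏ i, ((1 - C (b i) * X : ℤ[X]) : PowerSeries ℤ) ^ (m i) := by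
    unfold F
    rw [← Polynomial.coeToPowerSeries.ringHom_apply, map_prod]
    simp
  rw [h]
  have h2 : (PowerSeries.mk fun j => Q b (fun i => (m i : ℤ)) (j + 1))
      = ∑ i, (m i) • (PowerSeries.mk fun j => (b i) ^ (j + 1) : PowerSeries ℤ) := by
    ext j
    rw [PowerSeries.coeff_mk, map_sum]
    unfold Q
    refine Finset.sum_congr rfl fun i _ => ?_
    rw [map_nsmul, PowerSeries.coeff_mk]
    simp
  rw [h2]
  exact LD_prod _ _ _ fun i _ => LD_pow (LD_lin (b i)) (m i)

/-- Newton's identities. -/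
lemma newton {n : ℕ} (b : Fin n → ℤ) (m : Fin n → ℕ) (k : ℕ) :
    ((k : ℤ) + 1) * (F b m).coeff (k + 1) =
      -∑ x ∈ Finset.HasAntidiagonal.antidiagonal k, (F b m).coeff x.1 * Q b (fun i => (m i : ℤ)) (x.2 + 1) := by
  have h := LD_F b m
  unfold LD at h
  have h2 := congrArg (PowerSeries.coeff k) h
  rw [PowerSeries.coeff_derivative, map_neg, PowerSeries.coeff_mul] at h2
  simp only [Polynomial.coeff_coe, PowerSeries.coeff_mk] at h2
  rw [← h2]
  ring

lemma F_coeff_zero {n : ℕ} (b : Fin n → ℤ) (m : Fin n → ℕ) : (F b m).coeff 0 = 1 := by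
  unfold F
  rw [Polynomial.coeff_zero_eq_eval_zero, Polynomial.eval_prod]
  simp

/-- the power sums are determined by the first `n` of them, with integral coefficients -/
lemma Q_dvd {n : ℕ} (b : Fin n → ℤ) (m : Fin n → ℤ) (D : ℤ) (h : ∀ j < n, D ∣ Q b m j) (j : ℕ) :
    D ∣ Q b m j := by
  set G : ℤ[X] := ∏ i, (X - C (b i)) with hG
  have hGm : G.Monic := monic_prod_of_monic _ _ fun i _ => monic_X_sub_C _
  have hGd : G.natDegree = n := by
    rw [hG, Polynomial.natDegree_prod_of_monic _ _ fun i _ => monic_X_sub_C _,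
      Finset.sum_congr rfl fun i _ => natDegree_X_sub_C _]
    simp
  have key : ∀ i, b i ^ j = ((X ^ j : ℤ[X]) %ₘ G).eval (b i) := by
    intro i
    have h1 := Polynomial.modByMonic_add_div (X ^ j : ℤ[X]) G
    have h2 := congrArg (Polynomial.eval (b i)) h1
    rw [eval_add, eval_mul] at h2
    have h3 : G.eval (b i) = 0 := by
      rw [hG, eval_prod]
      exact Finset.prod_eq_zero (Finset.mem_univ i) (by simp)
    rw [h3, zero_mul, add_zero] at h2
    rw [h2]; simp
  have hdeg : ((X ^ j : ℤ[X]) %ₘ G).natDegree < n ∨ ((X ^ j : ℤ[X]) %ₘ G) = 0 := by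
    by_cases hn : n = 0
    · right
      subst hn
      have : G = 1 := by rw [hG]; simp
      rw [this, modByMonic_one]
    · left
      rw [← hGd]
      apply Polynomial.natDegree_modByMonic_lt _ hGm
      intro h1
      rw [h1] at hGd
      simp at hGd
      exact hn hGd.symm
  have : Q b m j = ∑ l ∈ Finset.range n, ((X ^ j : ℤ[X]) %ₘ G).coeff l * Q b m l := by
    unfold Q
    rw [show (∑ i, m i * b i ^ j) = ∑ i, m i * ((X ^ j : ℤ[X]) %ₘ G).eval (b i) from
      Finset.sum_congr rfl fun i _ => by rw [← key i]]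
    have h4 : ∀ x : ℤ, ((X ^ j : ℤ[X]) %ₘ G).eval x
        = ∑ l ∈ Finset.range n, ((X ^ j : ℤ[X]) %ₘ G).coeff l * x ^ l := by
      intro x
      rcases hdeg with hd | hd
      · exact Polynomial.eval_eq_sum_range' hd x
      · rw [hd]; simp
    simp only [h4, Finset.mul_sum]
    rw [Finset.sum_comm]
    refine Finset.sum_congr rfl fun l _ => Finset.sum_congr rfl fun i _ => by ring
  rw [this]
  exact Finset.dvd_sum fun l hl => Dvd.dvd.mul_left (h l (Finset.mem_range.1 hl)) _

end Pool.Agent.H637R2.Leo
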