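import Mathlib
import Pool.Agent.H637R2.Leo.Core

set_option autoImplicit false

namespace Pool.Agent.H637R2.Leo

open Polynomial Finset

lemma lt_pow_aux {n k : ℕ} (hn : 1 ≤ n) (hk : n ≤ k) : k < (n + 1) ^ (k - n + 1) := by
  obtain ⟨l, rfl⟩ := Nat.exists_eq_add_of_le hk
  have h : n + l - n + 1 = l + 1 := by omega
  rw [h]
  clear hk h
  induction l with
  | zero => simp
  | succ l ih =>
    rw [pow_succ]
    have h2 : (n + 1) ^ (l + 1) * (n + 1) ≥ (n + 1) ^ (l + 1) * 2 := Nat.mul_le_mul_left _ (by omega)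
    omega

lemma exp_bound {p κ n k : ℕ} (hp : p.Prime) (hn : 1 ≤ n) (h : n < p ^ κ) (hk : n ≤ k) :
    padicValNat p k < κ * (k - n + 1) := by
  have hk0 : k ≠ 0 := by omega
  have h1 : p ^ padicValNat p k ≤ k := Nat.le_of_dvd (by omega) pow_padicValNat_dvd
  have h2 : k < (n + 1) ^ (k - n + 1) := lt_pow_aux hn hk
  have h3 : (n + 1) ^ (k - n + 1) ≤ (p ^ κ) ^ (k - n + 1) := Nat.pow_le_pow_left h _
  rw [← pow_mul] at h3
  exact (Nat.pow_lt_pow_iff_right hp.one_lt).1 (lt_of_le_of_lt h1 (lt_of_lt_of_le h2 h3))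

/-- if `p^e ∣ k d` then `p^e ∣ p^(v_p k) d`. -/
lemma dvd_of_dvd_mul {p e k : ℕ} (hp : p.Prime) (hk : k ≠ 0) (d : ℤ)
    (h : (p : ℤ) ^ e ∣ (k : ℤ) * d) : (p : ℤ) ^ e ∣ (p : ℤ) ^ (padicValNat p k) * d := by
  have := Fact.mk hp
  obtain ⟨k', hk'⟩ := @pow_padicValNat_dvd p k
  have hcop : IsCoprime ((p : ℤ) ^ e) (k' : ℤ) := by
    apply IsCoprime.pow_left
    rw [Nat.isCoprime_iff_coprime]
    rw [Nat.Prime.coprime_iff_not_dvd hp]
    intro hdv
    have : p ^ (padicValNat p k + 1) ∣ k := by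
      rw [hk', pow_succ]
      have h1 : padicValNat p (p ^ padicValNat p k * k') = padicValNat p k := by rw [← hk']
      rw [h1]
      exact mul_dvd_mul_left _ hdv
    exact pow_succ_padicValNat_not_dvd hk this
  have h2 : (k : ℤ) * d = (k' : ℤ) * ((p : ℤ) ^ (padicValNat p k) * d) := by
    conv_lhs => rw [hk']
    push_cast
    ring
  rw [h2] at h
  exact hcop.dvd_of_dvd_mul_left h

lemma main_int {A : Type*} [CommRing A] (t : A) {p κ n : ℕ} (hp : p.Prime) (hn : 1 ≤ n)
    (hκ : n < p ^ κ)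
    (H1 : ∀ k, ∃ r : Fin n → ℤ, t ^ k = ∑ i, (r i : A) * t ^ (i : ℕ))
    (δ : ℕ) (H2 : ∀ (N : ℕ) (x : Fin n → ℤ),
      ((p : A) ^ (N + δ) ∣ ∑ i, (x i : A) * t ^ (i : ℕ)) → ∀ i, (p : ℤ) ^ N ∣ x i)
    (b : Fin n → ℤ) (m : Fin n → ℕ) (E N : ℕ) (hN : κ * n + E + δ ≤ N)
    (h0 : (p : ℤ) ^ E ∣ Q b (fun i => (m i : ℤ)) 0)
    (hF : (p : A) ^ N ∣ ∏ i, (1 - (b i : A) * ((p : A) ^ κ * t)) ^ (m i) - 1) :
    ∀ j, (p : ℤ) ^ E ∣ Q b (fun i => (m i : ℤ)) j := by
  -- induction on the exponent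
  suffices H : ∀ e, e ≤ E → ∀ j, (p : ℤ) ^ e ∣ Q b (fun i => (m i : ℤ)) j from H E le_rfl
  intro e
  induction e with
  | zero => intro _ j; simp
  | succ e ih =>
    intro he
    have ih' := ih (by omega)
    set d : ℕ → ℤ := fun k => (F b m).coeff k with hd
    have hd0 : d 0 = 1 := F_coeff_zero b m
    -- a) `p^e ∣ k d_k`
    have ha : ∀ k : ℕ, (p : ℤ) ^ e ∣ (k : ℤ) * d k := by
      intro k
      cases k with
      | zero => simp
      | succ k =>
        have h1 := newton b m k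
        push_cast
        rw [show (F b m).coeff (k + 1) = d (k + 1) from rfl] at h1
        rw [h1]
        rw [dvd_neg]
        exact Finset.dvd_sum fun x _ => Dvd.dvd.mul_left (ih' _) _
    -- b)
    have hb : ∀ k, n ≤ k → (p : ℤ) ^ (κ * (n - 1) + e + 1) ∣ d k * (p : ℤ) ^ (κ * k) := by
      intro k hk
      have h1 := dvd_of_dvd_mul hp (by omega : k ≠ 0) (d k) (ha k)
      have h2 := exp_bound hp hn hκ hk
      set v := padicValNat p k with hv
      have h3 : κ * k = κ * (n - 1) + (1 + (κ * (k - n + 1) - v - 1)) + v := by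
        have h4 : κ * k = κ * (n - 1) + κ * (k - n + 1) := by
          rw [← mul_add]; congr 1; omega
        omega
      rw [h3, pow_add, pow_add, pow_add, pow_add, pow_add]
      have h5 : d k * ((p : ℤ) ^ (κ * (n - 1)) * ((p : ℤ) ^ 1 * (p : ℤ) ^ (κ * (k - n + 1) - v - 1))
          * (p : ℤ) ^ v) = ((p : ℤ) ^ (κ * (n - 1)) * ((p : ℤ) ^ v * d k) * (p : ℤ) ^ 1)
            * (p : ℤ) ^ (κ * (k - n + 1) - v - 1) := by ring
      rw [h5]
      apply Dvd.dvd.mul_right
      exact mul_dvd_mul (mul_dvd_mul_left _ h1) dvd_rfl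
    -- c) the coefficients in the basis `1, t, ..., t^(n-1)`
    choose r hr using H1
    set L := (F b m).natDegree + 1 with hL
    have hprod : ∏ i, (1 - (b i : A) * ((p : A) ^ κ * t)) ^ (m i)
        = ∑ k ∈ Finset.range (n + L), (d k : A) * ((p : A) ^ κ * t) ^ k := by
      have h1 : ∏ i, (1 - (b i : A) * ((p : A) ^ κ * t)) ^ (m i)
          = aeval ((p : A) ^ κ * t) (F b m) := by
        unfold F
        rw [map_prod]
        simp
      rw [h1, aeval_eq_sum_range' (show (F b m).natDegree < n + L by omega)]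
      refine Finset.sum_congr rfl fun k _ => ?_
      rw [hd, zsmul_eq_mul]
    set x : Fin n → ℤ := fun i => d i * (p : ℤ) ^ (κ * i) - (if (i : ℕ) = 0 then 1 else 0)
      + ∑ l ∈ Finset.range L, d (n + l) * (p : ℤ) ^ (κ * (n + l)) * r (n + l) i with hx
    have hsum : ∏ i, (1 - (b i : A) * ((p : A) ^ κ * t)) ^ (m i) - 1
        = ∑ i, (x i : A) * t ^ (i : ℕ) := by
      rw [hprod, Finset.sum_range_add, Finset.sum_range]
      have h1 : ∀ i : Fin n, (x i : A) * t ^ (i : ℕ) = (d i : A) * ((p : A) ^ κ * t) ^ (i : ℕ)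
          - (if (i : ℕ) = 0 then 1 else 0) +
          ∑ l ∈ Finset.range L, (d (n + l) : A) * (p : A) ^ (κ * (n + l)) *
            ((r (n + l) i : A) * t ^ (i : ℕ)) := by
        intro i
        rw [hx]
        push_cast
        rw [add_mul, sub_mul, Finset.sum_mul]
        congr 1
        · congr 1
          · rw [mul_pow, ← pow_mul]; ring
          · by_cases hi : (i : ℕ) = 0
            · simp [hi]
            · simp [hi]
        · refine Finset.sum_congr rfl fun l _ => by ring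
      rw [Finset.sum_congr rfl fun i _ => h1 i, Finset.sum_add_distrib, Finset.sum_sub_distrib]
      have h2 : ∑ i : Fin n, (if (i : ℕ) = 0 then (1 : A) else 0) = 1 := by
        rw [Finset.sum_eq_single (⟨0, by omega⟩ : Fin n)]
        · simp
        · intro i _ hi
          rw [if_neg]
          intro h3
          exact hi (Fin.ext h3)
        · intro h3; exact absurd (Finset.mem_univ _) h3
      rw [h2, Finset.sum_comm]
      have h3 : ∀ l, ∑ i : Fin n, (d (n + l) : A) * (p : A) ^ (κ * (n + l)) *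
            ((r (n + l) i : A) * t ^ (i : ℕ)) = (d (n + l) : A) * ((p : A) ^ κ * t) ^ (n + l) := by
        intro l
        rw [← Finset.mul_sum, ← hr (n + l), mul_pow, ← pow_mul]
        ring
      rw [Finset.sum_congr rfl fun l _ => h3 l]
      ring
    have hc : ∀ i : Fin n, (p : ℤ) ^ (κ * (n - 1) + e + 1) ∣ x i := by
      apply H2
      rw [← hsum]
      refine dvd_trans (pow_dvd_pow _ ?_) hF
      have h1 : κ * (n - 1) + κ = κ * n := by
        conv_rhs => rw [show n = (n - 1) + 1 by omega]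
        ring
      have h2 : 1 ≤ κ := by
        rcases Nat.eq_zero_or_pos κ with h | h
        · subst h; simp at hκ; omega
        · exact h
      omega
    have hdd : ∀ i : ℕ, 1 ≤ i → i < n → (p : ℤ) ^ (e + 1) ∣ d i := by
      intro i hi1 hi2
      have h1 := hc ⟨i, hi2⟩
      rw [hx] at h1
      simp only [show ¬ (i = 0) by omega, if_false, sub_zero] at h1
      have h2 : (p : ℤ) ^ (κ * (n - 1) + e + 1) ∣
          ∑ l ∈ Finset.range L, d (n + l) * (p : ℤ) ^ (κ * (n + l)) * r (n + l) ⟨i, hi2⟩ :=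
        Finset.dvd_sum fun l _ => Dvd.dvd.mul_right (hb (n + l) (by omega)) _
      have h3 := (Int.dvd_add_left h2).1 h1
      have h4 : κ * i ≤ κ * (n - 1) := Nat.mul_le_mul_left _ (by omega)
      have h5 : (p : ℤ) ^ (κ * i) * (p : ℤ) ^ (e + 1) ∣ (p : ℤ) ^ (κ * i) * d i := by
        rw [← pow_add, mul_comm _ (d i)]
        exact dvd_trans (pow_dvd_pow _ (by omega)) h3
      have hp0 : (p : ℤ) ^ (κ * i) ≠ 0 := pow_ne_zero _ (by exact_mod_cast hp.ne_zero)
      exact (mul_dvd_mul_iff_left hp0).1 h5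
    -- d) back to the power sums
    have hQ : ∀ j, j < n → (p : ℤ) ^ (e + 1) ∣ Q b (fun i => (m i : ℤ)) j := by
      intro j hj
      cases j with
      | zero => exact dvd_trans (pow_dvd_pow _ he) h0
      | succ j =>
        have h1 := newton b m j
        rw [Finset.Nat.sum_antidiagonal_eq_sum_range_succ_mk, Finset.sum_range_succ'] at h1
        simp only [F_coeff_zero, one_mul, Nat.sub_zero] at h1
        have h2 : Q b (fun i => (m i : ℤ)) (j + 1) = -(((j : ℤ) + 1) * d (j + 1))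
            - ∑ k ∈ Finset.range j, d (k + 1) * Q b (fun i => (m i : ℤ)) (j - (k + 1) + 1) := by
          rw [hd]
          simp only
          rw [h1]
          ring
        rw [h2]
        refine dvd_sub ((dvd_neg).2 (Dvd.dvd.mul_left (hdd _ (by omega) hj) _)) ?_
        exact Finset.dvd_sum fun k hk => Dvd.dvd.mul_right
          (hdd _ (by omega) (by have := Finset.mem_range.1 hk; omega)) _
    exact fun j => Q_dvd b _ _ hQ j

end Pool.Agent.H637R2.Leo
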