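import Mathlib
import Pool.Agent.H637R2.Leo.Main

set_option autoImplicit false

namespace Pool.Agent.H637R2.Leo

open Polynomial Finset NumberField

/-- Powers of a root of a monic integral polynomial of degree `n` are integral combinations of the
first `n` powers. -/
lemma span_pow {A : Type*} [CommRing A] (t : A) (n : ℕ) (G : ℤ[X]) (hm : G.Monic)
    (hd : G.natDegree = n) (ht : aeval t G = 0) (P : ℤ[X]) :
    ∃ r : Fin n → ℤ, aeval t P = ∑ i, (r i : A) * t ^ (i : ℕ) := by
  have h1 : aeval t P = aeval t (P %ₘ G) := by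
    have h := congrArg (aeval t) (Polynomial.modByMonic_add_div P G)
    rw [map_add, map_mul, ht, zero_mul, add_zero] at h
    exact h.symm
  have hdeg : (P %ₘ G).natDegree < n ∨ (P %ₘ G) = 0 := by
    by_cases hn : n = 0
    · right
      subst hn
      rw [hm.natDegree_eq_zero.1 hd, modByMonic_one]
    · left
      rw [← hd]
      apply Polynomial.natDegree_modByMonic_lt _ hm
      intro h1
      rw [h1] at hd
      simp at hd
      exact hn hd.symm
  refine ⟨fun i => (P %ₘ G).coeff i, ?_⟩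
  rw [h1]
  rcases hdeg with hd | hd
  · rw [aeval_eq_sum_range' hd, Finset.sum_range]
    refine Finset.sum_congr rfl fun i _ => ?_
    rw [zsmul_eq_mul]
  · rw [hd]; simp

variable {K : Type} [Field K] [NumberField K]

/-- divisibility of coordinates -/
lemma coord_dvd (n : ℕ) (hn : Module.finrank ℚ K = n) (t : 𝓞 K)
    (ht : Algebra.adjoin ℚ {(t : K)} = ⊤) (p : ℕ) (hp : p.Prime)
    (H1 : ∀ P : ℤ[X], ∃ r : Fin n → ℤ, aeval t P = ∑ i, (r i : 𝓞 K) * t ^ (i : ℕ)) :
    ∃ δ : ℕ, ∀ (N : ℕ) (x : Fin n → ℤ),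
      ((p : 𝓞 K) ^ (N + δ) ∣ ∑ i, (x i : 𝓞 K) * t ^ (i : ℕ)) → ∀ i, (p : ℤ) ^ N ∣ x i := by
  have htint : IsIntegral ℚ (t : K) := Algebra.IsIntegral.isIntegral _
  set B : PowerBasis ℚ K := PowerBasis.ofAdjoinEqTop htint ht with hB
  have hgen : B.gen = (t : K) := by simp [hB]
  have hdim : B.dim = n := by rw [← hn]; exact (PowerBasis.finrank B).symm
  have hint : IsIntegral ℤ B.gen := by rw [hgen]; exact t.2
  have hDint : IsIntegral ℤ (Algebra.discr ℚ B.basis) := by
    apply Algebra.discr_isIntegral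
    intro i
    rw [B.coe_basis]
    exact hint.pow _
  obtain ⟨D, hD⟩ := IsIntegrallyClosed.isIntegral_iff.1 hDint
  have hD0 : D ≠ 0 := by
    intro h
    rw [h, map_zero] at hD
    exact Algebra.discr_not_zero_of_basis ℚ B.basis hD.symm
  -- linear independence
  have hlin : ∀ x : Fin n → ℚ, (∑ i, (algebraMap ℚ K (x i)) * (t : K) ^ (i : ℕ)) = 0 → ∀ i, x i = 0 := by
    intro x hx
    have h1 := B.basis.linearIndependent
    rw [B.coe_basis, hgen] at h1
    rw [Fintype.linearIndependent_iff] at h1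
    subst hdim
    apply h1 x
    rw [← hx]
    refine Finset.sum_congr rfl fun i _ => ?_
    rw [Algebra.smul_def]
  -- integral coordinates after multiplication with `D`
  have hco : ∀ z : 𝓞 K, ∃ y : Fin n → ℤ, (D : 𝓞 K) * z = ∑ i, (y i : 𝓞 K) * t ^ (i : ℕ) := by
    intro z
    have h1 := Algebra.discr_mul_isIntegral_mem_adjoin (R := ℤ) ℚ hint z.2
    rw [← hD, hgen] at h1
    rw [Algebra.adjoin_singleton_eq_range_aeval] at h1
    obtain ⟨P, hP⟩ := h1
    obtain ⟨y, hy⟩ := H1 P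
    refine ⟨y, ?_⟩
    rw [← hy]
    apply RingOfIntegers.ext
    change algebraMap (𝓞 K) K _ = algebraMap (𝓞 K) K _
    rw [map_mul]
    have h2 : algebraMap (𝓞 K) K (aeval t P) = aeval (t : K) P :=
      (Polynomial.aeval_algebraMap_apply K t P).symm
    rw [h2]
    change _ = (aeval (t : K)).toRingHom P
    rw [show (aeval (t : K)).toRingHom P = _ from hP]
    rw [Algebra.smul_def]
    simp
    left; rfl
  refine ⟨padicValInt p D, ?_⟩
  intro N x ⟨z, hz⟩ i
  obtain ⟨y, hy⟩ := hco z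
  have h1 : ∑ i, (((D * x i - (p : ℤ) ^ (N + padicValInt p D) * y i : ℤ)) : 𝓞 K) * t ^ (i : ℕ) = 0 := by
    have h2 : (D : 𝓞 K) * ∑ i, (x i : 𝓞 K) * t ^ (i : ℕ)
        = (p : 𝓞 K) ^ (N + padicValInt p D) * ∑ i, (y i : 𝓞 K) * t ^ (i : ℕ) := by
      rw [← hy, hz]; ring
    rw [Finset.mul_sum, Finset.mul_sum, ← sub_eq_zero, ← Finset.sum_sub_distrib] at h2
    rw [← h2]
    refine Finset.sum_congr rfl fun i _ => ?_
    push_cast
    ring
  have h3 : (D * x i - (p : ℤ) ^ (N + padicValInt p D) * y i) = 0 := by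
    have h4 := hlin (fun i => ((D * x i - (p : ℤ) ^ (N + padicValInt p D) * y i : ℤ) : ℚ)) (by
      have h5 := congrArg (algebraMap (𝓞 K) K) h1
      rw [map_sum, map_zero] at h5
      rw [← h5]
      refine Finset.sum_congr rfl fun i _ => ?_
      rw [map_mul, map_pow]
      simp) i
    exact_mod_cast h4
  have h6 : D * x i = (p : ℤ) ^ (N + padicValInt p D) * y i := by linarith
  -- strip the `p`-part of `D`
  have := Fact.mk hp
  obtain ⟨D', hD'⟩ : (p : ℤ) ^ padicValInt p D ∣ D := by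
    rw [padicValInt_dvd_iff]
    right; exact le_rfl
  have hcop : IsCoprime ((p : ℤ) ^ N) D' := by
    apply IsCoprime.pow_left
    rw [Prime.coprime_iff_not_dvd (Nat.prime_iff_prime_int.1 hp)]
    intro hdv
    have h7 : (p : ℤ) ^ (padicValInt p D + 1) ∣ D := by
      conv_rhs => rw [hD']
      rw [pow_succ]
      exact mul_dvd_mul_left _ hdv
    rw [padicValInt_dvd_iff] at h7
    rcases h7 with h7 | h7
    · exact hD0 h7
    · omega
  apply hcop.dvd_of_dvd_mul_left
  have hp0 : (p : ℤ) ^ padicValInt p D ≠ 0 := pow_ne_zero _ (by exact_mod_cast hp.ne_zero)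
  apply (mul_dvd_mul_iff_left hp0).1
  refine ⟨y i, ?_⟩
  rw [← mul_assoc, ← hD', h6, pow_add]
  ring

end Pool.Agent.H637R2.Leo
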