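import Mathlib
import Pool.Agent.H637R2.Leo.Fld

set_option autoImplicit false

namespace Pool.Agent.H637R2.Leo

open Polynomial Finset NumberField Filter Topology

variable {K : Type} [Field K] [NumberField K]

/-- The subgroup of units congruent to `1` modulo `p^N`. -/
noncomputable def H (K : Type) [Field K] [NumberField K] (p N : ℕ) : Subgroup (𝓞 K)ˣ :=
  (Units.map (Ideal.Quotient.mk (Ideal.span {(p : 𝓞 K) ^ N})).toMonoidHom).ker

lemma mem_H (p N : ℕ) (x : (𝓞 K)ˣ) : x ∈ H K p N ↔ (p : 𝓞 K) ^ N ∣ (x : 𝓞 K) - 1 := by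
  unfold H
  rw [MonoidHom.mem_ker, Units.ext_iff]
  change (Ideal.Quotient.mk (Ideal.span {(p : 𝓞 K) ^ N})) (x : 𝓞 K) = _ ↔ _
  rw [show ((1 : (𝓞 K ⧸ Ideal.span {(p : 𝓞 K) ^ N})ˣ) : 𝓞 K ⧸ Ideal.span {(p : 𝓞 K) ^ N})
    = Ideal.Quotient.mk _ 1 from rfl, Ideal.Quotient.mk_eq_mk_iff_sub_mem,
    Ideal.mem_span_singleton]

lemma pow_mem_H (p N : ℕ) (x : (𝓞 K)ˣ) (hx : (p : 𝓞 K) ∣ (x : 𝓞 K) - 1) :
    x ^ (p ^ N) ∈ H K p N := by
  rw [mem_H]
  have h := dvd_sub_pow_of_dvd_sub (p := p) hx N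
  rw [one_pow] at h
  rw [Units.val_pow_eq_pow_val]
  exact dvd_trans (pow_dvd_pow _ (by omega)) h

lemma prod_zpow_sum {ι G : Type*} [CommGroup G] (s : Finset ι) (x : G) (f : ι → ℤ) :
    ∏ i ∈ s, x ^ f i = x ^ (∑ i ∈ s, f i) := by
  classical
  induction s using Finset.induction_on with
  | empty => simp
  | insert a s ha ih => rw [Finset.prod_insert ha, Finset.sum_insert ha, zpow_add, ih]

/-- The situation: `θ` generates `K` of degree `n`, and `∏ (θ - a_i) = ±1`. -/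
structure Data (K : Type) [Field K] [NumberField K] (p κ n : ℕ) where
  hp : p.Prime
  hn : 1 ≤ n
  hκ : n < p ^ κ
  finrank : Module.finrank ℚ K = n
  a : Fin n → ℤ
  inj : Function.Injective a
  cong : ∀ i j, (p : ℤ) ^ κ ∣ a i - a j
  θ : 𝓞 K
  gen : IntermediateField.adjoin ℚ {(θ : K)} = ⊤
  e : ℤ
  he : e = 1 ∨ e = -1
  prod : ∏ i, (θ - (a i : 𝓞 K)) = (e : 𝓞 K)

namespace Data

variable {p κ n : ℕ} (S : Data K p κ n)

include S in
lemma kpos : 1 ≤ κ := by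
  rcases Nat.eq_zero_or_pos κ with h | h
  · have h1 := S.hκ
    have h2 := S.hn
    subst h; simp at h1; omega
  · exact h

lemma ee : S.e * S.e = 1 := by rcases S.he with h | h <;> rw [h] <;> norm_num

lemma isUnit (i : Fin n) : IsUnit (S.θ - (S.a i : 𝓞 K)) := by
  have h1 : (S.θ - (S.a i : 𝓞 K)) ∣ (S.e : 𝓞 K) := by
    rw [← S.prod]
    exact Finset.dvd_prod_of_mem (fun i => (S.θ - (S.a i : 𝓞 K))) (Finset.mem_univ i)
  refine isUnit_of_dvd_unit h1 ?_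
  refine IsUnit.of_mul_eq_one (S.e : 𝓞 K) ?_
  have := S.ee
  exact_mod_cast this

/-- the units `θ - a_i` -/
noncomputable def U (i : Fin n) : (𝓞 K)ˣ := (S.isUnit i).unit

@[simp] lemma U_val (i : Fin n) : (S.U i : 𝓞 K) = S.θ - (S.a i : 𝓞 K) := rfl

/-- the distinguished index -/
def z : Fin n := ⟨0, S.hn⟩

/-- the unit `t = (θ - a_0)⁻¹` -/
noncomputable def t : (𝓞 K)ˣ := (S.U S.z)⁻¹

/-- `a_i - a_0 = p^κ b_i` -/
noncomputable def b (i : Fin n) : ℤ := Classical.choose (S.cong i S.z)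

lemma b_spec (i : Fin n) : S.a i - S.a S.z = (p : ℤ) ^ κ * S.b i :=
  Classical.choose_spec (S.cong i S.z)

lemma b_zero : S.b S.z = 0 := by
  have h := S.b_spec S.z
  rw [sub_self] at h
  have hp0 : (p : ℤ) ^ κ ≠ 0 := pow_ne_zero _ (by exact_mod_cast S.hp.ne_zero)
  rcases mul_eq_zero.1 h.symm with h | h
  · exact absurd h hp0
  · exact h

lemma b_inj : Function.Injective S.b := by
  intro i j hij
  apply S.inj
  have h1 := S.b_spec i
  have h2 := S.b_spec j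
  rw [hij] at h1
  linarith

/-- the units `u_i = (θ - a_i)/(θ - a_0) = 1 - p^κ b_i t` -/
noncomputable def u (i : Fin n) : (𝓞 K)ˣ := S.U i * S.t

lemma u_val (i : Fin n) : (S.u i : 𝓞 K) = 1 - (S.b i : 𝓞 K) * ((p : 𝓞 K) ^ κ * (S.t : 𝓞 K)) := by
  have h1 : (S.U S.z : 𝓞 K) * (S.t : 𝓞 K) = 1 := by
    unfold t; exact Units.mul_inv _
  have h2 : (S.a i : 𝓞 K) = (S.a S.z : 𝓞 K) + (p : 𝓞 K) ^ κ * (S.b i : 𝓞 K) := by
    have := S.b_spec i
    have h3 : S.a i = S.a S.z + (p : ℤ) ^ κ * S.b i := by linarith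
    rw [h3]; push_cast; ring
  unfold u
  rw [Units.val_mul, U_val, h2]
  rw [U_val] at h1
  linear_combination h1

lemma u_sub_one (i : Fin n) : (p : 𝓞 K) ∣ (S.u i : 𝓞 K) - 1 := by
  rw [u_val]
  have h1 : (p : 𝓞 K) ∣ (p : 𝓞 K) ^ κ := dvd_pow_self _ (by have := S.kpos; omega)
  have h2 : (1 - (S.b i : 𝓞 K) * ((p : 𝓞 K) ^ κ * (S.t : 𝓞 K)) - 1)
    = (p : 𝓞 K) ^ κ * (-(S.b i : 𝓞 K) * (S.t : 𝓞 K)) := by ring
  rw [h2]
  exact Dvd.dvd.mul_right h1 _

lemma prod_u : ∏ i, (S.u i : 𝓞 K) = (S.e : 𝓞 K) * (S.t : 𝓞 K) ^ n := by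
  unfold u
  simp only [Units.val_mul, U_val]
  rw [Finset.prod_mul_distrib, S.prod]
  simp

/-- the monic integral polynomial killing `t` -/
noncomputable def G : ℤ[X] := X ^ n - C S.e * ∏ i, (1 - C ((p : ℤ) ^ κ * S.b i) * X)

lemma aeval_G : aeval (S.t : 𝓞 K) S.G = 0 := by
  unfold G
  rw [map_sub, map_mul, map_prod]
  have h1 : ∀ i, aeval (S.t : 𝓞 K) (1 - C ((p : ℤ) ^ κ * S.b i) * X : ℤ[X]) = (S.u i : 𝓞 K) := by
    intro i
    rw [u_val]
    simp
    ring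
  rw [Finset.prod_congr rfl fun i _ => h1 i, prod_u]
  have h2 : (S.e : 𝓞 K) * (S.e : 𝓞 K) = 1 := by exact_mod_cast S.ee
  simp
  linear_combination (-(S.t : 𝓞 K) ^ n) * h2

lemma degree_aux : (C S.e * ∏ i, (1 - C ((p : ℤ) ^ κ * S.b i) * X)).natDegree < n := by
  have hn := S.hn
  refine lt_of_le_of_lt (natDegree_C_mul_le _ _) ?_
  have h1 : ∏ i, (1 - C ((p : ℤ) ^ κ * S.b i) * X)
      = ∏ i ∈ Finset.univ.erase S.z, (1 - C ((p : ℤ) ^ κ * S.b i) * X) := by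
    rw [← Finset.mul_prod_erase _ _ (Finset.mem_univ S.z), S.b_zero]
    simp
  rw [h1]
  refine lt_of_le_of_lt (natDegree_prod_le _ _) ?_
  refine lt_of_le_of_lt (Finset.sum_le_card_nsmul _ _ 1 fun i _ => ?_) ?_
  · refine (natDegree_sub_le _ _).trans ?_
    refine max_le (by simp) ?_
    exact (natDegree_C_mul_le _ _).trans natDegree_X_le
  · rw [Finset.card_erase_of_mem (Finset.mem_univ _)]
    simp
    omega

lemma G_monic : S.G.Monic := by
  unfold G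
  apply monic_X_pow_sub
  exact lt_of_le_of_lt degree_le_natDegree (by exact_mod_cast S.degree_aux)

lemma G_natDegree : S.G.natDegree = n := by
  unfold G
  rw [natDegree_sub_eq_left_of_natDegree_lt]
  · simp
  · rw [natDegree_X_pow]; exact S.degree_aux

lemma gen' : Algebra.adjoin ℚ {((S.t : 𝓞 K) : K)} = ⊤ := by
  have h1 : IntermediateField.adjoin ℚ {((S.t : 𝓞 K) : K)} = ⊤ := by
    rw [eq_top_iff, ← S.gen, IntermediateField.adjoin_simple_le_iff]
    have h2 : ((S.t : 𝓞 K) : K) * ((S.θ : K) - (S.a S.z : K)) = 1 := by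
      have h3 : (S.U S.z : 𝓞 K) * (S.t : 𝓞 K) = 1 := by
        unfold t; exact Units.mul_inv _
      have h4 := congrArg (algebraMap (𝓞 K) K) h3
      rw [map_mul, map_one, U_val, map_sub, mul_comm] at h4
      simpa using h4
    have h5 : (S.θ : K) = ((S.t : 𝓞 K) : K)⁻¹ + (S.a S.z : K) := by
      have h6 : ((S.t : 𝓞 K) : K) ≠ 0 := left_ne_zero_of_mul_eq_one h2
      field_simp
      linear_combination h2
    rw [h5]
    refine add_mem (inv_mem (IntermediateField.mem_adjoin_simple_self _ _)) ?_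
    exact intCast_mem _ _
  rw [← IntermediateField.adjoin_simple_toSubalgebra_of_isAlgebraic
    (Algebra.IsAlgebraic.isAlgebraic _), h1]
  rfl

lemma H1 (P : ℤ[X]) : ∃ r : Fin n → ℤ, aeval (S.t : 𝓞 K) P = ∑ i, (r i : 𝓞 K) * (S.t : 𝓞 K) ^ (i : ℕ) :=
  span_pow _ n S.G S.G_monic S.G_natDegree S.aeval_G P

lemma H2 : ∃ δ : ℕ, ∀ (N : ℕ) (x : Fin n → ℤ),
      ((p : 𝓞 K) ^ (N + δ) ∣ ∑ i, (x i : 𝓞 K) * (S.t : 𝓞 K) ^ (i : ℕ)) → ∀ i, (p : ℤ) ^ N ∣ x i :=
  coord_dvd n S.finrank _ S.gen' p S.hp S.H1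

/-- the core congruence: integer exponents -/
lemma main : ∃ δ, ∀ (M : Fin n → ℤ) (E N : ℕ), κ * n + E + δ ≤ N → (∏ i, S.U i ^ M i) ∈ H K p N →
    ∀ j, (p : ℤ) ^ E ∣ ∑ i, (2 * n * M i - 2 * ∑ l, M l) * S.b i ^ j := by
  obtain ⟨δ, hδ⟩ := S.H2
  refine ⟨δ, fun M E N hN hM j => ?_⟩
  set Mt := ∑ l, M l with hMt
  -- exponents for the `u_i`
  set m' : Fin n → ℤ := fun i => 2 * n * M i - 2 * Mt with hm'
  have h1 : ∏ i, S.u i ^ m' i ∈ H K p N := by
    have h2 : ∏ i, S.u i ^ m' i = (∏ i, S.U i ^ M i) ^ (2 * n) := by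
      have h3 : (∏ i, S.u i) ^ 2 = S.t ^ (2 * n) := by
        apply Units.ext
        rw [Units.val_pow_eq_pow_val, Units.coe_prod, prod_u, Units.val_pow_eq_pow_val]
        have h2 : (S.e : 𝓞 K) * (S.e : 𝓞 K) = 1 := by exact_mod_cast S.ee
        rw [mul_pow, pow_two, h2, one_mul, ← pow_mul]
        ring_nf
      have h4 : ∏ i, S.U i ^ M i = S.t ^ (-Mt) * ∏ i, S.u i ^ M i := by
        have h5 : ∀ i, S.U i ^ M i = S.t ^ (-M i) * S.u i ^ M i := by
          intro i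
          unfold u
          rw [mul_zpow, zpow_neg]
          rw [mul_comm, mul_assoc, mul_inv_cancel, mul_one]
        rw [Finset.prod_congr rfl fun i _ => h5 i, Finset.prod_mul_distrib]
        congr 1
        rw [hMt, ← Finset.sum_neg_distrib, prod_zpow_sum]
      have h6 : ∏ i, S.u i ^ m' i = (∏ i, S.u i ^ M i) ^ (2 * n) * ((∏ i, S.u i) ^ 2) ^ (-Mt) := by
        rw [← Finset.prod_pow, ← Finset.prod_pow, ← Finset.prod_zpow, ← Finset.prod_mul_distrib]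
        refine Finset.prod_congr rfl fun i _ => ?_
        rw [← zpow_natCast, ← zpow_natCast, ← zpow_mul, ← zpow_mul, ← zpow_add]
        congr 1
        rw [hm']
        push_cast
        ring
      rw [h4, h6, h3, mul_pow, mul_comm]
      congr 1
      rw [← zpow_natCast, ← zpow_natCast, ← zpow_mul, ← zpow_mul]
      congr 1
      ring
    rw [h2]
    exact Subgroup.pow_mem _ hM _
  -- make the exponents nonnegative
  set C : ℕ := ∑ i, (m' i).natAbs with hC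
  have hpos : ∀ i, 0 ≤ m' i + (p : ℤ) ^ N * C := by
    intro i
    have h3 : (m' i).natAbs ≤ C :=
      Finset.single_le_sum (f := fun i => (m' i).natAbs) (fun _ _ => Nat.zero_le _) (Finset.mem_univ i)
    have h4 : (1 : ℤ) ≤ (p : ℤ) ^ N := by exact_mod_cast Nat.one_le_pow _ _ S.hp.pos
    have h5 : (C : ℤ) ≤ (p : ℤ) ^ N * C := le_mul_of_one_le_left (by positivity) h4
    have h6 : -((m' i).natAbs : ℤ) ≤ m' i := by
      have := neg_abs_le (m' i)
      rwa [Int.abs_eq_natAbs] at this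
    have h7 : ((m' i).natAbs : ℤ) ≤ C := by exact_mod_cast h3
    linarith
  set m'' : Fin n → ℕ := fun i => (m' i + (p : ℤ) ^ N * C).toNat with hm''
  have hcast : ∀ i, (m'' i : ℤ) = m' i + (p : ℤ) ^ N * C := fun i => Int.toNat_of_nonneg (hpos i)
  have h7 : ∏ i, S.u i ^ m'' i ∈ H K p N := by
    have h8 : ∏ i, S.u i ^ m'' i = (∏ i, S.u i ^ m' i) * ∏ i, (S.u i ^ (p ^ N)) ^ C := by
      rw [← Finset.prod_mul_distrib]
      refine Finset.prod_congr rfl fun i _ => ?_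
      rw [← zpow_natCast, hcast, zpow_add, ← pow_mul, ← zpow_natCast (S.u i) (p ^ N * C)]
      push_cast
      rfl
    rw [h8]
    refine Subgroup.mul_mem _ h1 (Subgroup.prod_mem _ fun i _ => Subgroup.pow_mem _ ?_ _)
    exact pow_mem_H p N _ (S.u_sub_one i)
  rw [mem_H] at h7
  have h9 : ((∏ i, S.u i ^ m'' i : (𝓞 K)ˣ) : 𝓞 K)
      = ∏ i, (1 - (S.b i : 𝓞 K) * ((p : 𝓞 K) ^ κ * (S.t : 𝓞 K))) ^ (m'' i) := by
    rw [Units.coe_prod]
    refine Finset.prod_congr rfl fun i _ => ?_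
    rw [Units.val_pow_eq_pow_val, u_val]
  rw [h9] at h7
  have hsum0 : ∑ i, m' i = 0 := by
    rw [hm']
    simp only
    rw [Finset.sum_sub_distrib, ← Finset.mul_sum, ← hMt]
    simp
    ring
  have h0 : (p : ℤ) ^ E ∣ Q S.b (fun i => (m'' i : ℤ)) 0 := by
    unfold Q
    have h10 : ∑ i, (m'' i : ℤ) * S.b i ^ 0 = (p : ℤ) ^ N * (n * C) := by
      simp only [pow_zero, mul_one, hcast]
      rw [Finset.sum_add_distrib, hsum0]
      simp
      ring
    rw [h10]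
    exact Dvd.dvd.mul_right (pow_dvd_pow _ (by omega)) _
  have h11 := main_int (S.t : 𝓞 K) S.hp S.hn S.hκ (fun k => by
    have := S.H1 (X ^ k)
    simpa using this) δ hδ S.b m'' E N hN h0 h7 j
  unfold Q at h11
  have h12 : ∑ i, (m'' i : ℤ) * S.b i ^ j = ∑ i, m' i * S.b i ^ j
      + (p : ℤ) ^ N * (C * ∑ i, S.b i ^ j) := by
    simp only [hcast]
    rw [Finset.mul_sum, Finset.mul_sum, ← Finset.sum_add_distrib]
    refine Finset.sum_congr rfl fun i _ => by ring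
  rw [h12] at h11
  have h13 : (p : ℤ) ^ E ∣ (p : ℤ) ^ N * (C * ∑ i, S.b i ^ j) :=
    Dvd.dvd.mul_right (pow_dvd_pow _ (by omega)) _
  exact (Int.dvd_add_left h13).1 h11

/-- `p`-adic independence -/
lemma indep (M : ℕ → Fin n → ℤ) [Fact p.Prime] (w : Fin n → ℤ_[p])
    (hlim : ∀ i, Tendsto (fun k => ((M k i : ℤ) : ℤ_[p])) atTop (𝓝 (w i)))
    (hM : ∀ N : ℕ, ∀ᶠ k in atTop, (∏ i, S.U i ^ M k i) ∈ H K p N) :
    ∀ i, (n : ℤ_[p]) * w i = ∑ l, w l := by
  -- the limit of the power sums vanishes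
  have h1 : ∀ j : ℕ, ∑ i, (2 * (n : ℤ_[p]) * w i - 2 * ∑ l, w l) * (S.b i : ℤ_[p]) ^ j = 0 := by
    intro j
    have h2 : Tendsto (fun k => ((∑ i, (2 * n * M k i - 2 * ∑ l, M k l) * S.b i ^ j : ℤ) : ℤ_[p])) atTop
        (𝓝 (∑ i, (2 * (n : ℤ_[p]) * w i - 2 * ∑ l, w l) * (S.b i : ℤ_[p]) ^ j)) := by
      push_cast
      refine tendsto_finsetSum _ fun i _ => ?_
      refine Tendsto.mul ?_ tendsto_const_nhds
      refine Tendsto.sub ?_ ?_
      · exact Tendsto.mul tendsto_const_nhds (hlim i)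
      · exact Tendsto.mul tendsto_const_nhds (tendsto_finsetSum _ fun l _ => hlim l)
    have h3 : Tendsto (fun k => ((∑ i, (2 * n * M k i - 2 * ∑ l, M k l) * S.b i ^ j : ℤ) : ℤ_[p])) atTop
        (𝓝 0) := by
      obtain ⟨δ, hδ⟩ := S.main
      rw [Metric.tendsto_atTop]
      intro ε hε
      obtain ⟨E, hE⟩ := exists_pow_lt_of_lt_one hε
        (show (p : ℝ)⁻¹ < 1 from inv_lt_one_of_one_lt₀ (by exact_mod_cast S.hp.one_lt))
      obtain ⟨k0, hk0⟩ := eventually_atTop.1 (hM (κ * n + E + δ))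
      refine ⟨k0, fun k hk => ?_⟩
      rw [dist_zero_right]
      refine lt_of_le_of_lt ?_ hE
      have h4 := hδ (M k) E _ le_rfl (hk0 k hk) j
      have h5 := (PadicInt.norm_int_le_pow_iff_dvd
        (k := ∑ i, (2 * n * M k i - 2 * ∑ l, M k l) * S.b i ^ j) (n := E) (p := p)).2 (by exact_mod_cast h4)
      rw [zpow_neg, zpow_natCast, ← inv_pow] at h5
      exact h5
    exact tendsto_nhds_unique h2 h3
  have h2 : (fun i => (2 * (n : ℤ_[p]) * w i - 2 * ∑ l, w l)) = 0 := by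
    refine Matrix.eq_zero_of_forall_pow_sum_mul_pow_eq_zero (f := fun i => (S.b i : ℤ_[p])) ?_
      fun j => h1 j
    intro i j hij
    have hij' : ((S.b i : ℤ) : ℤ_[p]) = ((S.b j : ℤ) : ℤ_[p]) := hij
    exact S.b_inj (by exact_mod_cast hij')
  intro i
  have h3 := congrFun h2 i
  simp only [Pi.zero_apply] at h3
  have h4 : (2 : ℤ_[p]) * ((n : ℤ_[p]) * w i - ∑ l, w l) = 0 := by rw [← h3]; ring
  rcases mul_eq_zero.1 h4 with h | h
  · exact absurd h (by norm_num)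
  · linear_combination h

end Data

end Pool.Agent.H637R2.Leo
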