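import Mathlib
import Pool.Agent.H637R2.Leo.Ind

set_option autoImplicit false

namespace Pool.Agent.H637R2.Leo

open Polynomial Finset NumberField Filter Topology

/-- Leopoldt's conjecture for the number field `K` and the prime `p`: units of `K` congruent to `1`
at all primes above `p` which are multiplicatively independent over `ℤ` stay independent over
`ℤ_p` in the product of the completions above `p`. -/
def Leopoldt (K : Type) [Field K] [NumberField K] (p : ℕ) [Fact p.Prime] : Prop :=
  ∀ (n : ℕ) (ε : Fin n → (𝓞 K)ˣ),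
    (∀ i, ((ε i : 𝓞 K) - 1) ∈ (Ideal.span {((p : ℕ) : 𝓞 K)}).radical) →
    (∀ c : Fin n → ℤ, ∏ i, ε i ^ c i = 1 → c = 0) →
    ∀ (a : Fin n → PadicInt p) (m : ℕ → Fin n → ℤ),
      (∀ i, Tendsto (fun k => ((m k i : ℤ) : PadicInt p)) atTop (𝓝 (a i))) →
      (∀ N : ℕ, ∀ᶠ k in atTop,
        ((p : ℕ) : 𝓞 K) ^ N ∣ (((∏ i, ε i ^ m k i : (𝓞 K)ˣ) : 𝓞 K) - 1)) →
      a = 0

variable {K : Type} [Field K] [NumberField K]

/-- a rational matrix trick: a `ℤ`-independent family of integer vectors is independent over `ℤ_p` -/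
lemma padic_indep_of_int_indep {s n : ℕ} (p : ℕ) [Fact p.Prime] (B : Fin s → Fin n → ℤ)
    (hB : ∀ c : Fin s → ℤ, (∀ j, ∑ i, c i * B i j = 0) → c = 0)
    (a : Fin s → ℤ_[p]) (ha : ∀ j, ∑ i, a i * (B i j : ℤ_[p]) = 0) : a = 0 := by
  have h1 : LinearIndependent ℤ (fun i => fun j => (B i j : ℚ)) := by
    rw [Fintype.linearIndependent_iff]
    intro c hc
    have h2 : c = 0 := by
      apply hB
      intro j
      have h3 := congrFun hc j
      rw [Finset.sum_apply] at h3
      simp only [Pi.smul_apply, zsmul_eq_mul, Pi.zero_apply] at h3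
      exact_mod_cast h3
    intro i
    rw [h2]; rfl
  have h2 : LinearIndependent ℚ (fun i => fun j => (B i j : ℚ)) :=
    (LinearIndependent.iff_fractionRing ℤ ℚ).1 h1
  set f : (Fin s → ℚ) →ₗ[ℚ] (Fin n → ℚ) := Fintype.linearCombination ℚ (fun i => fun j => (B i j : ℚ)) with hf
  have h3 : LinearMap.ker f = ⊥ := by
    rw [Fintype.linearIndependent_iff] at h2
    rw [LinearMap.ker_eq_bot']
    intro c hc
    rw [hf, Fintype.linearCombination_apply] at hc
    exact funext (h2 c hc)
  obtain ⟨g, hg⟩ := LinearMap.exists_leftInverse_of_injective f h3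
  -- matrix form
  have h4 : ∀ i l, ∑ j, (B i j : ℚ) * g (Pi.single j 1) l = if i = l then 1 else 0 := by
    intro i l
    have h5 := congrFun (congrArg (fun φ => φ (Pi.single i (1 : ℚ))) hg) l
    simp only [LinearMap.comp_apply, LinearMap.id_apply] at h5
    have h6 : f (Pi.single i (1 : ℚ)) = ∑ j, (B i j : ℚ) • (Pi.single j (1 : ℚ) : Fin n → ℚ) := by
      rw [hf, Fintype.linearCombination_apply_single, one_smul]
      funext k
      rw [Finset.sum_apply]
      simp [Pi.single_apply]
    rw [h6, map_sum, Finset.sum_apply] at h5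
    simp only [map_smul, Pi.smul_apply, smul_eq_mul] at h5
    rw [h5, Pi.single_apply]
    by_cases h : i = l
    · simp [h]
    · simp [h, Ne.symm h]
  set φ := algebraMap ℤ_[p] ℚ_[p] with hφ
  have h5 : ∀ l, φ (a l) = 0 := by
    intro l
    have h6 : ∑ j, (∑ i, φ (a i) * (B i j : ℚ_[p])) * ((g (Pi.single j 1) l : ℚ) : ℚ_[p]) = 0 := by
      apply Finset.sum_eq_zero
      intro j _
      have h7 := congrArg φ (ha j)
      rw [map_sum, map_zero] at h7
      rw [Finset.sum_congr rfl fun i _ => show φ (a i) * (B i j : ℚ_[p]) = φ (a i * (B i j : ℤ_[p])) by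
        rw [map_mul, map_intCast], h7, zero_mul]
    simp only [Finset.sum_mul] at h6
    rw [Finset.sum_comm] at h6
    have h8 : ∀ i, ∑ j, φ (a i) * (B i j : ℚ_[p]) * ((g (Pi.single j 1) l : ℚ) : ℚ_[p])
        = φ (a i) * (if i = l then 1 else 0) := by
      intro i
      have h9 := congrArg (fun x : ℚ => (x : ℚ_[p])) (h4 i l)
      push_cast at h9
      have h10 : (if i = l then (1 : ℚ_[p]) else 0) = (((if i = l then (1 : ℚ) else 0) : ℚ) : ℚ_[p]) := by
        split_ifs <;> simp
      rw [h10, ← h9, Finset.mul_sum]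
      refine Finset.sum_congr rfl fun j _ => by ring
    rw [Finset.sum_congr rfl fun i _ => h8 i] at h6
    simpa using h6
  funext l
  exact (IsFractionRing.injective ℤ_[p] ℚ_[p]) (by rw [← hφ, h5 l]; simp)

namespace Data

variable {p κ n : ℕ} (S : Data K p κ n)

lemma indep_int (c : Fin n → ℤ) (h : ∏ i, S.U i ^ c i = 1) (hz : c S.z = 0) : c = 0 := by
  have : Fact p.Prime := ⟨S.hp⟩
  have h1 := S.indep (fun _ => c) (fun i => (c i : ℤ_[p])) (fun i => tendsto_const_nhds)
    (fun N => Eventually.of_forall fun k => by rw [h]; exact Subgroup.one_mem _)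
  have h2 : ∑ l, c l = 0 := by
    have h3 := h1 S.z
    rw [hz] at h3
    simp only [Int.cast_zero, mul_zero] at h3
    exact_mod_cast h3.symm
  funext i
  have h4 := h1 i
  rw [← Int.cast_sum, h2] at h4
  have hn : (n : ℤ_[p]) ≠ 0 := by
    have := S.hn
    exact_mod_cast (by omega : n ≠ 0)
  rw [Int.cast_zero] at h4
  rcases mul_eq_zero.1 h4 with h5 | h5
  · exact absurd h5 hn
  · exact_mod_cast h5

include S in
lemma rank_le : Units.rank K + 1 ≤ n := by
  have h1 := InfinitePlace.card_add_two_mul_card_eq_rank K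
  have h2 := InfinitePlace.card_eq_nrRealPlaces_add_nrComplexPlaces K
  have h3 := S.finrank
  have h4 := S.hn
  unfold Units.rank
  omega

lemma exists_rel (ε : (𝓞 K)ˣ) : ∃ (T : ℤ) (B : Fin n → ℤ), T ≠ 0 ∧ B S.z = 0 ∧
    ε ^ T = ∏ i, S.U i ^ B i := by
  set v : Fin n → Additive (𝓞 K)ˣ := fun i => if i = S.z then Additive.ofMul ε else Additive.ofMul (S.U i)
    with hv
  have h1 : ¬ LinearIndependent ℤ v := by
    intro h
    have h2 := h.fintype_card_le_finrank
    rw [Units.finrank_eq, Fintype.card_fin] at h2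
    have := S.rank_le
    omega
  rw [Fintype.not_linearIndependent_iff] at h1
  obtain ⟨g, hg, i0, hi0⟩ := h1
  have h3 : ε ^ (g S.z) * ∏ i ∈ Finset.univ.erase S.z, S.U i ^ (g i) = 1 := by
    rw [← Finset.add_sum_erase _ _ (Finset.mem_univ S.z)] at hg
    have h4 := congrArg Additive.toMul hg
    rw [toMul_add, toMul_sum, toMul_zero] at h4
    have e1 : Additive.toMul (g S.z • v S.z) = ε ^ g S.z := by
      rw [hv]; simp
    have e2 : ∏ i ∈ Finset.univ.erase S.z, Additive.toMul (g i • v i)
        = ∏ i ∈ Finset.univ.erase S.z, S.U i ^ (g i) := by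
      refine Finset.prod_congr rfl fun i hi => ?_
      rw [hv]
      simp [Finset.ne_of_mem_erase hi]
    rw [e1, e2] at h4
    exact h4
  have h5 : ∀ f : Fin n → ℤ, f S.z = 0 → ∏ i, S.U i ^ f i = ∏ i ∈ Finset.univ.erase S.z, S.U i ^ (f i) := by
    intro f hf
    rw [← Finset.mul_prod_erase _ _ (Finset.mem_univ S.z), hf, zpow_zero, one_mul]
  refine ⟨g S.z, fun i => if i = S.z then 0 else - g i, ?_, by simp, ?_⟩
  · intro hg0
    rw [hg0, zpow_zero, one_mul, ← h5 g hg0] at h3
    have := S.indep_int g h3 hg0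
    exact hi0 (by rw [this]; rfl)
  · rw [h5 _ (by simp)]
    rw [mul_eq_one_iff_eq_inv] at h3
    rw [h3, ← Finset.prod_inv_distrib]
    refine Finset.prod_congr rfl fun i hi => ?_
    rw [if_neg (Finset.ne_of_mem_erase hi), zpow_neg]

include S in
/-- **Criterion**: Leopoldt's conjecture holds for `K` and `p`. -/
theorem leopoldt [Fact p.Prime] : Leopoldt K p := by
  intro s ε _ hε a m hlim hm
  choose T B hT hB0 hrel using fun i => S.exists_rel (ε i)
  -- common exponent
  set T0 : ℤ := ∏ i, T i with hT0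
  have hT0' : T0 ≠ 0 := Finset.prod_ne_zero_iff.2 fun i _ => hT i
  set B' : Fin s → Fin n → ℤ := fun i j => (∏ l ∈ Finset.univ.erase i, T l) * B i j with hB'
  have hrel' : ∀ i, ε i ^ T0 = ∏ j, S.U j ^ B' i j := by
    intro i
    rw [hT0, ← Finset.mul_prod_erase _ _ (Finset.mem_univ i), zpow_mul, hrel, ← Finset.prod_zpow]
    refine Finset.prod_congr rfl fun j _ => ?_
    rw [← zpow_mul]
    congr 1
    rw [hB']; ring
  have hcomb : ∀ c : Fin s → ℤ, (∏ i, ε i ^ c i) ^ T0 = ∏ j, S.U j ^ (∑ i, c i * B' i j) := by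
    intro c
    rw [← Finset.prod_zpow]
    have h1 : ∀ i, (ε i ^ c i) ^ T0 = ∏ j, S.U j ^ (c i * B' i j) := by
      intro i
      rw [← zpow_mul, mul_comm, zpow_mul, hrel', ← Finset.prod_zpow]
      refine Finset.prod_congr rfl fun j _ => ?_
      rw [← zpow_mul, mul_comm]
    rw [Finset.prod_congr rfl fun i _ => h1 i, Finset.prod_comm]
    refine Finset.prod_congr rfl fun j _ => ?_
    rw [prod_zpow_sum]
  apply padic_indep_of_int_indep p B'
  · -- independence over ℤ
    intro c hc
    have h1 : ∏ i, ε i ^ (T0 * c i) = 1 := by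
      have h2 : (∏ i, ε i ^ c i) ^ T0 = 1 := by
        rw [hcomb c]
        apply Finset.prod_eq_one
        intro j _
        rw [hc j, zpow_zero]
      rw [← h2, ← Finset.prod_zpow]
      refine Finset.prod_congr rfl fun i _ => ?_
      rw [← zpow_mul, mul_comm]
    have h3 := hε _ h1
    funext i
    have h4 := congrFun h3 i
    simp only [Pi.zero_apply] at h4
    rcases mul_eq_zero.1 h4 with h | h
    · exact absurd h hT0'
    · exact h
  · -- the p-adic relation
    have h1 := S.indep (fun k j => ∑ i, m k i * B' i j) (fun j => ∑ i, a i * (B' i j : ℤ_[p]))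
      (fun j => by
        push_cast
        exact tendsto_finsetSum _ fun i _ => Tendsto.mul (hlim i) tendsto_const_nhds)
      (fun N => by
        filter_upwards [hm N] with k hk
        rw [← hcomb]
        apply Subgroup.zpow_mem
        rw [mem_H]
        exact hk)
    have h2 : ∑ i, a i * (B' i S.z : ℤ_[p]) = 0 := by
      apply Finset.sum_eq_zero
      intro i _
      rw [hB']
      simp only [hB0]
      simp
    intro j
    have h3 := h1 S.z
    rw [h2, mul_zero] at h3
    have h4 := h1 j
    rw [← h3] at h4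
    have hn : (n : ℤ_[p]) ≠ 0 := by
      have := S.hn
      exact_mod_cast (by omega : n ≠ 0)
    rcases mul_eq_zero.1 h4 with h5 | h5
    · exact absurd h5 hn
    · exact h5

include S in
theorem totallyReal : IsTotallyReal K := by
  have h1 : LinearIndependent ℤ (fun i : {i : Fin n // i ≠ S.z} => Additive.ofMul (S.U i)) := by
    rw [Fintype.linearIndependent_iff]
    intro g hg
    set c : Fin n → ℤ := fun i => if h : i ≠ S.z then g ⟨i, h⟩ else 0 with hc
    have h2 : ∏ i, S.U i ^ c i = 1 := by
      rw [← Finset.mul_prod_erase _ _ (Finset.mem_univ S.z)]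
      have h5 : c S.z = 0 := by simp [hc]
      rw [h5, zpow_zero, one_mul]
      have h4 := congrArg Additive.toMul hg
      rw [toMul_sum, toMul_zero] at h4
      rw [← h4, Finset.prod_subtype (p := fun i => i ≠ S.z) (Finset.univ.erase S.z) (fun x => by simp)]
      refine Finset.prod_congr rfl fun i _ => ?_
      rw [hc]
      simp [i.2]
    have h3 := S.indep_int c h2 (by simp [hc])
    intro i
    have h4 := congrFun h3 i.1
    rw [hc] at h4
    simpa [i.2] using h4
  have h2 := h1.fintype_card_le_finrank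
  rw [Units.finrank_eq] at h2
  have h3 : Fintype.card {i : Fin n // i ≠ S.z} = n - 1 := by
    rw [Fintype.card_subtype_compl]
    simp
  rw [h3] at h2
  unfold Units.rank at h2
  have h4 := InfinitePlace.card_add_two_mul_card_eq_rank K
  have h5 := InfinitePlace.card_eq_nrRealPlaces_add_nrComplexPlaces K
  have h6 := S.finrank
  have h7 := S.hn
  have h8 : 0 < Fintype.card (InfinitePlace K) := Fintype.card_pos
  rw [← nrComplexPlaces_eq_zero_iff]
  omega

end Data

end Pool.Agent.H637R2.Leo
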