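import Mathlib
import Pool.Agent.H637R2.Leo.Crit

set_option autoImplicit false

namespace Pool.Agent.H637R2.Leo

open Polynomial Finset NumberField Filter Topology

/-- `∏ (X - a_i) - 1` -/
noncomputable def f {n : ℕ} (a : Fin n → ℤ) : ℤ[X] := ∏ i, (X - C (a i)) - 1

lemma prod_monic {n : ℕ} (a : Fin n → ℤ) : (∏ i, (X - C (a i))).Monic :=
  monic_prod_of_monic _ _ fun i _ => monic_X_sub_C _

lemma prod_natDegree {n : ℕ} (a : Fin n → ℤ) : (∏ i, (X - C (a i))).natDegree = n := by
  rw [natDegree_prod_of_monic _ _ fun i _ => monic_X_sub_C _,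
    Finset.sum_congr rfl fun i _ => natDegree_X_sub_C _]
  simp

lemma prod_degree {n : ℕ} (a : Fin n → ℤ) : (∏ i, (X - C (a i))).degree = (n : WithBot ℕ) := by
  rw [degree_eq_natDegree (prod_monic a).ne_zero, prod_natDegree]

lemma f_monic {n : ℕ} (hn : 1 ≤ n) (a : Fin n → ℤ) : (f a).Monic := by
  unfold f
  apply (prod_monic a).sub_of_left
  rw [prod_degree, degree_one]
  exact_mod_cast hn

lemma f_natDegree {n : ℕ} (a : Fin n → ℤ) : (f a).natDegree = n := by
  unfold f
  rcases Nat.eq_zero_or_pos n with h | h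
  · subst h; simp
  · rw [natDegree_sub_eq_left_of_natDegree_lt]
    · exact prod_natDegree a
    · rw [prod_natDegree, natDegree_one]; exact h

lemma f_eval {n : ℕ} (a : Fin n → ℤ) (i : Fin n) : (f a).eval (a i) = -1 := by
  unfold f
  rw [eval_sub, eval_prod, Finset.prod_eq_zero (Finset.mem_univ i) (by simp)]
  simp

/-- Schur -/
lemma f_irreducible {n : ℕ} (hn : 1 ≤ n) (a : Fin n → ℤ) (ha : Function.Injective a) :
    Irreducible (f a) := by
  rw [(f_monic hn a).irreducible_iff_natDegree']
  refine ⟨?_, ?_⟩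
  · intro h
    have := f_natDegree a
    rw [h, natDegree_one] at this
    omega
  · intro g h hg hh hgh hdeg
    rw [f_natDegree] at hdeg
    rw [Finset.mem_Ioc] at hdeg
    obtain ⟨h1, h2⟩ := hdeg
    have h3 : g.natDegree + h.natDegree = n := by
      rw [← hg.natDegree_mul hh, hgh, f_natDegree]
    have h4 : ∀ i, (g + h).eval (a i) = 0 := by
      intro i
      have h5 : g.eval (a i) * h.eval (a i) = -1 := by
        rw [← eval_mul, hgh, f_eval]
      rw [eval_add]
      rcases Int.mul_eq_neg_one_iff_eq_one_or_neg_one.1 h5 with h6 | h6 <;> rw [h6.1, h6.2] <;> norm_num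
    have h5 : g + h = 0 := by
      apply Polynomial.eq_zero_of_natDegree_lt_card_of_eval_eq_zero (g + h) ha h4
      rw [Fintype.card_fin]
      refine lt_of_le_of_lt (natDegree_add_le _ _) ?_
      apply max_lt <;> omega
    have h6 : h = -g := by rw [eq_neg_iff_add_eq_zero, add_comm]; exact h5
    have h7 := hh.leadingCoeff
    rw [h6, leadingCoeff_neg, hg.leadingCoeff] at h7
    norm_num at h7

lemma aeval_f {n : ℕ} (a : Fin n → ℤ) {A : Type*} [CommRing A] (x : A) :
    aeval x (f a) = ∏ i, (x - (a i : A)) - 1 := by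
  unfold f
  rw [map_sub, map_prod]
  simp

/-- an integral element as an element of the ring of integers -/
noncomputable def th {K : Type} [Field K] (θ : K) (h : IsIntegral ℤ θ) : 𝓞 K := ⟨θ, h⟩

lemma th_coe {K : Type} [Field K] (θ : K) (h : IsIntegral ℤ θ) :
    algebraMap (𝓞 K) K (th θ h) = θ := rfl

section field

variable {K : Type} [Field K] [NumberField K] {n : ℕ} (hn : 1 ≤ n) (a : Fin n → ℤ)
  (ha : Function.Injective a) (θ : K) (hθ : ∏ i, (θ - (a i : K)) = 1)

omit [NumberField K] in
include hn hθ in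
lemma theta_integral : IsIntegral ℤ θ :=
  ⟨f a, f_monic hn a, by
    have := aeval_f a θ
    rw [hθ, sub_self] at this
    exact this⟩

include hn hθ ha in
lemma minpoly_theta : minpoly ℚ θ = (f a).map (algebraMap ℤ ℚ) := by
  symm
  apply minpoly.eq_of_irreducible_of_monic
  · exact ((f_monic hn a).irreducible_iff_irreducible_map_fraction_map).1 (f_irreducible hn a ha)
  · rw [aeval_map_algebraMap, aeval_f, hθ, sub_self]
  · exact (f_monic hn a).map _

include hn hθ ha in
lemma finrank_eq (hgen : IntermediateField.adjoin ℚ {θ} = ⊤) : Module.finrank ℚ K = n := by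
  have h1 : IsIntegral ℚ θ := Algebra.IsIntegral.isIntegral θ
  have h2 := IntermediateField.adjoin.finrank h1
  rw [hgen, IntermediateField.finrank_top', minpoly_theta hn a ha θ hθ,
    natDegree_map_eq_of_injective (algebraMap ℤ ℚ).injective_int, f_natDegree] at h2
  exact h2

/-- package everything -/
noncomputable def mkData (p κ : ℕ) (hp : p.Prime) (hκ : n < p ^ κ)
    (hcong : ∀ i j, (p : ℤ) ^ κ ∣ a i - a j) (hgen : IntermediateField.adjoin ℚ {θ} = ⊤) :
    Data K p κ n where
  hp := hp
  hn := hn
  hκ := hκ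
  finrank := finrank_eq hn a ha θ hθ hgen
  a := a
  inj := ha
  cong := hcong
  θ := th θ (theta_integral hn a θ hθ)
  gen := hgen
  e := 1
  he := Or.inl rfl
  prod := by
    apply FaithfulSMul.algebraMap_injective (𝓞 K) K
    rw [map_prod, map_intCast, Int.cast_one, ← hθ]
    refine Finset.prod_congr rfl fun i _ => ?_
    rw [map_sub, map_intCast, th_coe]

end field

end Pool.Agent.H637R2.Leo
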