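import Mathlib
import Pool.Agent.H637R2.Leo.Poly

set_option autoImplicit false

namespace Pool.Agent.H637R2.Leo

open Polynomial Finset NumberField Filter Topology

/-- the fields exist -/
lemma exists_field {n : ℕ} (hn : 1 ≤ n) (a : Fin n → ℤ) (ha : Function.Injective a) :
    ∃ (K : Type) (_ : Field K) (_ : NumberField K) (θ : K),
      ∏ i, (θ - (a i : K)) = 1 ∧ IntermediateField.adjoin ℚ {θ} = ⊤ := by
  have hirr : Irreducible ((f a).map (algebraMap ℤ ℚ)) :=
    ((f_monic hn a).irreducible_iff_irreducible_map_fraction_map).1 (f_irreducible hn a ha)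
  have : Fact (Irreducible ((f a).map (algebraMap ℤ ℚ))) := ⟨hirr⟩
  refine ⟨AdjoinRoot ((f a).map (algebraMap ℤ ℚ)), inferInstance, ?_,
    AdjoinRoot.root _, ?_, IntermediateField.adjoin_root_eq_top _⟩
  · exact { to_charZero := charZero_of_injective_algebraMap (algebraMap ℚ _).injective
            to_finiteDimensional := (AdjoinRoot.powerBasis hirr.ne_zero).finite }
  · set F := (f a).map (algebraMap ℤ ℚ) with hF
    have hF' : F = ∏ i, (X - C ((a i : ℤ) : ℚ)) - 1 := by
      rw [hF, f, Polynomial.map_sub, Polynomial.map_prod]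
      simp
    have h1 : AdjoinRoot.mk F (∏ i, (X - C ((a i : ℤ) : ℚ)) - 1) = 0 := by
      rw [← hF']; exact AdjoinRoot.mk_self
    rw [map_sub, map_prod, map_one, sub_eq_zero] at h1
    rw [← h1]
    refine Finset.prod_congr rfl fun i _ => ?_
    rw [map_sub, AdjoinRoot.mk_X, map_intCast (C : ℚ →+* ℚ[X]), map_intCast]

/-- values of a nonconstant monic integral polynomial are divisible by primes outside any given
finite set -/
lemma exists_prime_root (g : ℤ[X]) (hd : 0 < g.natDegree) (N : ℕ) (hN : N ≠ 0) :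
    ∃ q : ℕ, q.Prime ∧ ¬ q ∣ N ∧ ∃ r : ZMod q, aeval r g = 0 := by
  by_cases hc : g.eval 0 = 0
  · obtain ⟨q, hq, hqp⟩ := Nat.exists_infinite_primes (N + 1)
    refine ⟨q, hqp, fun h => ?_, 0, ?_⟩
    · have := Nat.le_of_dvd (Nat.pos_of_ne_zero hN) h
      omega
    · have h1 : aeval (algebraMap ℤ (ZMod q) 0) g = 0 := by
        rw [aeval_algebraMap_apply, aeval_def, Algebra.algebraMap_self, eval₂_id, hc, map_zero]
      rwa [map_zero] at h1
  · set c := g.eval 0 with hcdef
    -- a value different from `± c`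
    set Hh : ℤ[X] := (g - C c) * (g + C c) with hH
    have hH0 : Hh ≠ 0 := by
      apply mul_ne_zero
      · intro h
        have : g = C c := sub_eq_zero.1 h
        rw [this, natDegree_C] at hd
        omega
      · intro h
        have : g = C (-c) := by rw [C_neg]; exact eq_neg_of_add_eq_zero_left h
        rw [this, natDegree_C] at hd
        omega
    have hfin : (Hh.rootSet ℤ).Finite := Hh.rootSet_finite ℤ
    have hinj : Function.Injective (fun x : ℕ => c * N * (x : ℤ)) := by
      intro x y hxy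
      have hcN : c * (N : ℤ) ≠ 0 := mul_ne_zero hc (by exact_mod_cast hN)
      exact_mod_cast mul_left_cancel₀ hcN hxy
    obtain ⟨x, hx⟩ := ((hfin.preimage hinj.injOn).infinite_compl).nonempty
    have hx' : Hh.eval (c * N * (x : ℤ)) ≠ 0 := by
      intro h
      apply hx
      rw [Set.mem_preimage, mem_rootSet]
      exact ⟨hH0, by simpa using h⟩
    set y := c * N * (x : ℤ) with hy
    obtain ⟨k, hk⟩ : y - 0 ∣ g.eval y - g.eval 0 := sub_dvd_eval_sub y 0 g
    rw [sub_zero] at hk
    have h1 : g.eval y = c * (1 + N * (x * k)) := by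
      rw [← hcdef] at hk
      rw [hy] at hk ⊢
      linear_combination hk
    have h2 : 1 + (N : ℤ) * (x * k) ≠ 1 := by
      intro h
      apply hx'
      rw [hH, eval_mul, eval_sub, h1, h]
      simp
    have h3 : 1 + (N : ℤ) * (x * k) ≠ -1 := by
      intro h
      apply hx'
      rw [hH, eval_mul, eval_add, h1, h]
      simp
    have h4 : (1 + (N : ℤ) * (x * k)).natAbs ≠ 1 := by
      intro h
      rcases Int.natAbs_eq_iff.1 h with h | h
      · exact h2 (by simpa using h)
      · exact h3 (by simpa using h)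
    obtain ⟨q, hq, hqd⟩ := Nat.exists_prime_and_dvd h4
    have hqd' : (q : ℤ) ∣ 1 + (N : ℤ) * (x * k) := Int.natCast_dvd.2 hqd
    refine ⟨q, hq, fun h => ?_, (y : ZMod q), ?_⟩
    · have h5 : (q : ℤ) ∣ (N : ℤ) * (x * k) := Dvd.dvd.mul_right (by exact_mod_cast h) _
      have h6 : (q : ℤ) ∣ 1 := (Int.dvd_add_left h5).1 hqd'
      have h7 : q ∣ 1 := by exact_mod_cast h6
      exact hq.one_lt.ne' (Nat.dvd_one.1 h7)
    · have h5 : aeval ((y : ℤ) : ZMod q) g = ((g.eval y : ℤ) : ZMod q) := by
        have := aeval_algebraMap_apply (ZMod q) y g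
        rw [eq_intCast, eq_intCast] at this
        rw [this]; simp
      rw [h5, ZMod.intCast_zmod_eq_zero_iff_dvd, h1]
      exact Dvd.dvd.mul_left hqd' _

/-- A number field has ring homomorphisms from its ring of integers to `𝔽_q` for primes `q` outside
any finite set. -/
lemma exists_hom (L : Type) [Field L] [NumberField L] (N : ℕ) (hN : N ≠ 0) :
    ∃ q : ℕ, q.Prime ∧ ¬ q ∣ N ∧ Nonempty (𝓞 L →+* ZMod q) := by
  classical
  -- an integral primitive element
  obtain ⟨α0, hα0⟩ := Field.exists_primitive_element ℚ L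
  obtain ⟨m, hm0, hm⟩ := ((IsFractionRing.isAlgebraic_iff ℤ ℚ L).2
    (Algebra.IsAlgebraic.isAlgebraic (R := ℚ) α0)).exists_integral_multiple
  set α : 𝓞 L := th (m • α0) hm with hα
  have hαc : algebraMap (𝓞 L) L α = m • α0 := th_coe _ _
  have hgen : IntermediateField.adjoin ℚ {algebraMap (𝓞 L) L α} = ⊤ := by
    rw [eq_top_iff, ← hα0, IntermediateField.adjoin_simple_le_iff]
    have h1 : α0 = (m : L)⁻¹ * algebraMap (𝓞 L) L α := by
      rw [hαc, zsmul_eq_mul, ← mul_assoc, inv_mul_cancel₀ (by exact_mod_cast hm0), one_mul]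
    rw [h1]
    exact mul_mem (inv_mem (intCast_mem _ _)) (IntermediateField.mem_adjoin_simple_self _ _)
  have hgen' : Algebra.adjoin ℚ {algebraMap (𝓞 L) L α} = ⊤ := by
    rw [← IntermediateField.adjoin_simple_toSubalgebra_of_isAlgebraic
      (Algebra.IsAlgebraic.isAlgebraic _), hgen]
    rfl
  -- `D 𝓞_L ⊆ ℤ[α]`
  have hαint : IsIntegral ℚ (algebraMap (𝓞 L) L α) := Algebra.IsIntegral.isIntegral _
  set B : PowerBasis ℚ L := PowerBasis.ofAdjoinEqTop hαint hgen' with hB
  have hBgen : B.gen = algebraMap (𝓞 L) L α := by simp [hB]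
  have hint : IsIntegral ℤ B.gen := by rw [hBgen]; exact α.2
  have hDint : IsIntegral ℤ (Algebra.discr ℚ B.basis) := by
    apply Algebra.discr_isIntegral
    intro i
    rw [B.coe_basis]
    exact hint.pow _
  obtain ⟨D, hD⟩ := IsIntegrallyClosed.isIntegral_iff.1 hDint
  have hD0 : D ≠ 0 := by
    intro h
    rw [h, map_zero] at hD
    exact Algebra.discr_not_zero_of_basis ℚ B.basis hD.symm
  have hco : ∀ z : 𝓞 L, ∃ P : ℤ[X], (D : 𝓞 L) * z = aeval α P := by
    intro z
    have h1 := Algebra.discr_mul_isIntegral_mem_adjoin (R := ℤ) ℚ hint z.2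
    rw [← hD, hBgen] at h1
    rw [Algebra.adjoin_singleton_eq_range_aeval] at h1
    obtain ⟨P, hP⟩ := h1
    refine ⟨P, ?_⟩
    apply RingOfIntegers.ext
    change algebraMap (𝓞 L) L _ = algebraMap (𝓞 L) L _
    rw [map_mul]
    have h2 : algebraMap (𝓞 L) L (aeval α P) = aeval (algebraMap (𝓞 L) L α) P :=
      (Polynomial.aeval_algebraMap_apply L α P).symm
    rw [h2]
    change _ = (aeval (algebraMap (𝓞 L) L α)).toRingHom P
    rw [show (aeval (algebraMap (𝓞 L) L α)).toRingHom P = _ from hP]
    rw [Algebra.smul_def]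
    simp
    left; rfl
  choose P hP using hco
  -- the minimal polynomial
  have hαZ : IsIntegral ℤ α := Algebra.IsIntegral.isIntegral α
  set g := minpoly ℤ α with hg
  have hgm : g.Monic := minpoly.monic hαZ
  obtain ⟨q, hq, hqN, r, hr⟩ := exists_prime_root g (minpoly.natDegree_pos hαZ) (N * D.natAbs)
    (mul_ne_zero hN (Int.natAbs_ne_zero.2 hD0))
  have := Fact.mk hq
  refine ⟨q, hq, fun h => hqN (Dvd.dvd.mul_right h _), ?_⟩
  have hDq : ((D : ℤ) : ZMod q) ≠ 0 := by
    rw [Ne, ZMod.intCast_zmod_eq_zero_iff_dvd]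
    intro h
    exact hqN (Dvd.dvd.mul_left (Int.natCast_dvd.1 h) _)
  -- well-definedness
  have hwd : ∀ P Q : ℤ[X], aeval α P = aeval α Q → aeval r P = aeval r Q := by
    intro P Q h
    have h1 : aeval α (P - Q) = 0 := by rw [map_sub, h, sub_self]
    obtain ⟨R, hR⟩ := minpoly.isIntegrallyClosed_dvd hαZ h1
    have h2 : aeval r (P - Q) = 0 := by
      rw [hR, map_mul]
      rw [show aeval r (minpoly ℤ α) = 0 from hr, zero_mul]
    rw [map_sub] at h2
    exact sub_eq_zero.1 h2
  have hkey : ∀ (z : 𝓞 L) (Q : ℤ[X]) (e : ℤ), (e : 𝓞 L) * z = aeval α Q → 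
      (e : ZMod q) * aeval r (P z) = D * aeval r Q := by
    intro z Q e h
    have h1 : aeval α (C e * P z) = aeval α (C D * Q) := by
      rw [map_mul, map_mul, ← hP z, ← h]
      simp
      ring
    have h2 := hwd _ _ h1
    rw [map_mul, map_mul] at h2
    simpa using h2
  refine ⟨⟨⟨⟨fun z => (D : ZMod q)⁻¹ * aeval r (P z), ?_⟩, ?_⟩, ?_, ?_⟩⟩
  · have h := hkey 1 1 1 (by simp)
    simp only [Int.cast_one, one_mul, map_one, mul_one] at h
    rw [h]
    exact inv_mul_cancel₀ hDq
  · intro x y
    have h1 : aeval r (P (x * y)) * D = aeval r (P x) * aeval r (P y) := by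
      rw [← map_mul]
      have h2 := hkey (x * y) (P x * P y) (D * D) (by
        rw [map_mul, ← hP x, ← hP y]; push_cast; ring)
      push_cast at h2
      have h3 : (D : ZMod q) * ((D : ZMod q) * aeval r (P (x * y)) - aeval r (P x * P y)) = 0 := by
        linear_combination h2
      rcases mul_eq_zero.1 h3 with h | h
      · exact absurd h hDq
      · linear_combination h
    simp only
    field_simp
    linear_combination h1
  · have h := hkey 0 0 1 (by simp)
    simp only [Int.cast_one, one_mul, map_zero, mul_zero] at h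
    simp only
    rw [h, mul_zero]
  · intro x y
    have h := hkey (x + y) (P x + P y) D (by rw [map_add, ← hP x, ← hP y]; ring)
    rw [map_add] at h
    have h3 := mul_left_cancel₀ hDq h
    simp only
    rw [h3]
    ring

end Pool.Agent.H637R2.Leo
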