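import Mathlib
import Pool.Agent.H637R2.Leo.Split

set_option autoImplicit false

namespace Pool.Agent.H637R2.Leo

open Polynomial Finset NumberField Filter Topology

lemma exists_noroot (q n : ℕ) (hq : q.Prime) (hn : 2 ≤ n) :
    ∃ c : ZMod q, ∀ x : ZMod q, x ^ (n - 1) * (x - c) ≠ 1 := by
  have := Fact.mk hq
  by_contra hcon
  push Not at hcon
  choose x hx using hcon
  have hx0 : ∀ c, x c ≠ 0 := by
    intro c h
    have := hx c
    rw [h, zero_pow (by omega), zero_mul] at this
    exact zero_ne_one this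
  have hinj : Function.Injective x := by
    intro c d hcd
    have h1 := hx c
    have h2 := hx d
    rw [← hcd] at h2
    have h3 : x c ^ (n - 1) * (c - d) = 0 := by linear_combination h2 - h1
    rcases mul_eq_zero.1 h3 with h | h
    · exact absurd (pow_eq_zero_iff (by omega) |>.1 h) (hx0 c)
    · exact sub_eq_zero.1 h
  obtain ⟨c, hc⟩ := (Finite.surjective_of_injective hinj) 0
  exact hx0 c hc

section

variable {K : Type} [Field K] [NumberField K] {n : ℕ} (hn : 3 ≤ n) (a : Fin n → ℤ)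
  (ha : Function.Injective a) (θ : K) (hθ : ∏ i, (θ - (a i : K)) = 1)
  (hgen : IntermediateField.adjoin ℚ {θ} = ⊤) (q : ℕ) (hq : q.Prime) (hqn : q ∣ n - 1)
  (hqa : ∀ i, (q : ℤ) ∣ a i)

include hqa in
lemma f_mod : (f a).map (Int.castRingHom (ZMod q)) = X ^ n - 1 := by
  unfold f
  rw [Polynomial.map_sub, Polynomial.map_prod, Polynomial.map_one]
  congr 1
  have h1 : ∀ i, Polynomial.map (Int.castRingHom (ZMod q)) (X - C (a i)) = X := by
    intro i
    rw [Polynomial.map_sub, map_X, map_C]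
    have : (Int.castRingHom (ZMod q)) (a i) = 0 := by
      rw [eq_intCast]; exact (ZMod.intCast_zmod_eq_zero_iff_dvd _ _).2 (hqa i)
    rw [this, C_0, sub_zero]
  rw [Finset.prod_congr rfl fun i _ => h1 i]
  simp

include hn hqn in
lemma n_mod : ((n : ℕ) : ZMod q) = 1 := by
  obtain ⟨k, hk⟩ := hqn
  have h1 : n = q * k + 1 := by omega
  rw [h1]
  simp

include hn ha hθ hgen hq hqn hqa in
lemma exists_psi : ∃ _ψ : 𝓞 K →+* ZMod q, True := by
  have := Fact.mk hq
  have hn1 : 1 ≤ n := by omega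
  -- Hensel
  set F : ℤ_[q][X] := (f a).map (Int.castRingHom ℤ_[q]) with hF
  have hF1 : F.eval 1 = (((f a).eval 1 : ℤ) : ℤ_[q]) := by
    rw [hF, eval_map, eval₂_at_one]
    simp
  have hF'1 : F.derivative.eval 1 = (((f a).derivative.eval 1 : ℤ) : ℤ_[q]) := by
    rw [hF, derivative_map, eval_map, eval₂_at_one]
    simp
  have hd1 : (q : ℤ) ∣ (f a).eval 1 := by
    rw [← ZMod.intCast_zmod_eq_zero_iff_dvd]
    have h1 := congrArg (eval (1 : ZMod q)) (f_mod a q hqa)
    rw [eval_map, eval₂_at_one] at h1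
    simpa using h1
  have hd2 : ¬ (q : ℤ) ∣ (f a).derivative.eval 1 := by
    rw [← ZMod.intCast_zmod_eq_zero_iff_dvd]
    have h1 := congrArg (eval (1 : ZMod q)) (congrArg derivative (f_mod a q hqa))
    rw [derivative_map, eval_map, eval₂_at_one] at h1
    have h2 := n_mod hn q hqn
    rw [derivative_sub, derivative_X_pow, derivative_one, sub_zero, eval_mul, eval_pow, eval_X,
      one_pow, mul_one, eval_C, h2, eq_intCast] at h1
    rw [h1]
    exact one_ne_zero
  have hnorm1 : ‖F.eval 1‖ < 1 := by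
    rw [hF1]; exact (PadicInt.norm_int_lt_one_iff_dvd _).2 hd1
  have hnorm2 : ‖F.derivative.eval 1‖ = 1 := by
    rw [hF'1]
    have h1 : ¬ ‖(((f a).derivative.eval 1 : ℤ) : ℤ_[q])‖ < 1 := fun h =>
      hd2 ((PadicInt.norm_int_lt_one_iff_dvd _).1 h)
    exact le_antisymm (PadicInt.norm_le_one _) (not_lt.1 h1)
  obtain ⟨z, hz, hz1, -⟩ := hensels_lemma (F := F) (a := (1 : ℤ_[q])) (by
    simp only [coe_aeval_eq_eval]
    rw [hnorm2, one_pow]; exact hnorm1)
  rw [coe_aeval_eq_eval] at hz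
  simp only [coe_aeval_eq_eval] at hz1
  rw [hnorm2] at hz1
  have hz' : aeval ((z : ℤ_[q]) : ℚ_[q]) (f a) = 0 := by
    have h1 : aeval z (f a) = 0 := by
      rw [hF, eval_map] at hz
      exact hz
    have h2 := aeval_algebraMap_apply ℚ_[q] z (f a)
    rw [h1, map_zero] at h2
    exact h2
  -- the embedding into `ℚ_q`
  have hint : IsIntegral ℚ θ := Algebra.IsIntegral.isIntegral _
  have hgen' : Algebra.adjoin ℚ {θ} = ⊤ := by
    rw [← IntermediateField.adjoin_simple_toSubalgebra_of_isAlgebraic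
      (Algebra.IsAlgebraic.isAlgebraic _), hgen]
    rfl
  set pb : PowerBasis ℚ K := PowerBasis.ofAdjoinEqTop hint hgen' with hpb
  have hpbgen : pb.gen = θ := by simp [hpb]
  have hroot : aeval ((z : ℤ_[q]) : ℚ_[q]) (minpoly ℚ pb.gen) = 0 := by
    rw [hpbgen, minpoly_theta hn1 a ha θ hθ, aeval_map_algebraMap]
    exact hz'
  set φ : K →ₐ[ℚ] ℚ_[q] := pb.lift _ hroot with hφ
  have hφθ : φ θ = ((z : ℤ_[q]) : ℚ_[q]) := by
    have := pb.lift_gen _ hroot
    rw [hpbgen] at this
    exact this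
  have hle : ∀ x : 𝓞 K, ‖φ (algebraMap (𝓞 K) K x)‖ ≤ 1 := by
    intro x
    have h1 : IsIntegral ℤ (φ (algebraMap (𝓞 K) K x)) :=
      (x.2).map (φ.restrictScalars ℤ)
    have h2 : IsIntegral ℤ_[q] (φ (algebraMap (𝓞 K) K x)) := h1.tower_top
    obtain ⟨y, hy⟩ := IsIntegrallyClosed.isIntegral_iff.1 h2
    rw [← hy]
    exact y.2
  let ρ : 𝓞 K →+* ℤ_[q] :=
    { toFun := fun x => ⟨φ (algebraMap (𝓞 K) K x), hle x⟩
      map_one' := Subtype.ext (by simp)
      map_zero' := Subtype.ext (by simp)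
      map_add' := fun x y => Subtype.ext (by first | (simp; rfl) | simp)
      map_mul' := fun x y => Subtype.ext (by first | (simp; rfl) | simp) }
  exact ⟨PadicInt.toZMod.comp ρ, trivial⟩

omit [NumberField K] in
include hn hq hqn hqa in
/-- two different roots of `f` in `𝓞 K` have different images in `𝔽_q`. -/
lemma psi_ne (ψ : 𝓞 K →+* ZMod q) (u v : 𝓞 K) (hu : aeval u (f a) = 0) (hv : aeval v (f a) = 0)
    (huv : u ≠ v) : ψ u ≠ ψ v := by
  intro h
  have := Fact.mk hq
  set P : (𝓞 K)[X] := (f a).map (Int.castRingHom (𝓞 K)) with hP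
  have hPu : P.eval u = 0 := by rw [hP, eval_map]; exact hu
  have hPv : P.eval v = 0 := by rw [hP, eval_map]; exact hv
  have hfac : (X - C u) * (P /ₘ (X - C u)) = P := mul_divByMonic_eq_iff_isRoot.2 hPu
  set g := P /ₘ (X - C u) with hg
  have hgv : g.eval v = 0 := by
    have h1 := congrArg (eval v) hfac
    rw [eval_mul, hPv] at h1
    rcases mul_eq_zero.1 h1 with h2 | h2
    · exfalso
      apply huv
      simp at h2
      exact (sub_eq_zero.1 h2).symm
    · exact h2
  have hder : P.derivative.eval v = (v - u) * g.derivative.eval v := by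
    rw [← hfac, derivative_mul, eval_add, eval_mul, eval_mul, hgv]
    simp
  have h1 : ψ (P.derivative.eval v) = 0 := by
    rw [hder, map_mul, map_sub, h, sub_self, zero_mul]
  -- but it is also `n v^(n-1)`
  have h2 : ∀ R : ℤ[X], ψ ((R.map (Int.castRingHom (𝓞 K))).eval v)
      = (R.map (Int.castRingHom (ZMod q))).eval (ψ v) := by
    intro R
    rw [eval_map, hom_eval₂, eval_map]
    congr 1
    exact RingHom.ext_int _ _
  have h3 := h2 (f a).derivative
  rw [← derivative_map, ← hP, h1, ← derivative_map, f_mod a q hqa] at h3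
  have h4 := h2 (f a)
  rw [← hP, hPv, map_zero, f_mod a q hqa] at h4
  have h5 := n_mod hn q hqn
  rw [derivative_sub, derivative_X_pow, derivative_one, sub_zero, eval_mul, eval_pow, eval_X,
      eval_C, h5, one_mul] at h3
  rw [eval_sub, eval_pow, eval_X, eval_one] at h4
  have h6 : ψ v = 0 := by
    rcases pow_eq_zero_iff (n := n - 1) (by omega) |>.1 h3.symm with h
    exact h
  rw [h6, zero_pow (by omega)] at h4
  simp at h4

include hn ha hθ hgen hq hqn hqa in
theorem not_galois : ¬ IsGalois ℚ K := by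
  intro hG
  have := Fact.mk hq
  have hn1 : 1 ≤ n := by omega
  obtain ⟨ψ, -⟩ := exists_psi hn a ha θ hθ hgen q hq hqn hqa
  have hθint : IsIntegral ℤ θ := theta_integral hn1 a θ hθ
  let v : (K ≃ₐ[ℚ] K) → 𝓞 K := fun σ => th (σ θ) (hθint.map (σ.restrictScalars ℤ).toAlgHom)
  have hvc : ∀ σ, algebraMap (𝓞 K) K (v σ) = σ θ := fun σ => rfl
  have hv : ∀ σ, aeval (v σ) (f a) = 0 := by
    intro σ
    rw [aeval_f, sub_eq_zero]
    apply FaithfulSMul.algebraMap_injective (𝓞 K) K
    rw [map_prod, map_one]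
    have h1 : ∀ i, algebraMap (𝓞 K) K (v σ - (a i : 𝓞 K)) = σ (θ - (a i : K)) := by
      intro i
      rw [map_sub, map_intCast, hvc, map_sub, map_intCast]
    rw [Finset.prod_congr rfl fun i _ => h1 i, ← map_prod, hθ, map_one]
  have hvinj : Function.Injective v := by
    intro σ τ h
    have h1 : σ θ = τ θ := by
      have := congrArg (algebraMap (𝓞 K) K) h
      rwa [hvc, hvc] at this
    have hint : IsIntegral ℚ θ := Algebra.IsIntegral.isIntegral _
    have hgen' : Algebra.adjoin ℚ {θ} = ⊤ := by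
      rw [← IntermediateField.adjoin_simple_toSubalgebra_of_isAlgebraic
        (Algebra.IsAlgebraic.isAlgebraic _), hgen]
      rfl
    have h2 : (σ : K →ₐ[ℚ] K) = (τ : K →ₐ[ℚ] K) := by
      apply (PowerBasis.ofAdjoinEqTop hint hgen').algHom_ext
      simpa using h1
    exact AlgEquiv.coe_toAlgHom_injective h2
  have hinj : Function.Injective (fun σ => ψ (v σ)) := by
    intro σ τ h
    by_contra hne
    exact psi_ne hn a q hq hqn hqa ψ (v σ) (v τ) (hv σ) (hv τ) (fun h' => hne (hvinj h')) h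
  have hcard : Fintype.card (K ≃ₐ[ℚ] K) = n := by
    rw [← Nat.card_eq_fintype_card, IsGalois.card_aut_eq_finrank, finrank_eq hn1 a ha θ hθ hgen]
  have h1 := Fintype.card_le_of_injective _ hinj
  rw [hcard, ZMod.card] at h1
  have h2 := Nat.le_of_dvd (by omega) hqn
  omega

end

end Pool.Agent.H637R2.Leo
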