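import Mathlib
import Pool.Agent.H637R2.Leo.Gal

set_option autoImplicit false

namespace Pool.Agent.H637R2.Leo

open Polynomial Finset NumberField Filter Topology

/-- **Explicit families.** -/
theorem explicit_family (p : ℕ) [hp : Fact p.Prime] (n κ : ℕ) (hn : 1 ≤ n) (hκ : n < p ^ κ)
    (a : Fin n → ℤ) (ha : Function.Injective a) (hcong : ∀ i j, (p : ℤ) ^ κ ∣ a i - a j)
    (K : Type) [Field K] [NumberField K] (θ : K) (hθ : ∏ i, (θ - (a i : K)) = 1)
    (hgen : IntermediateField.adjoin ℚ {θ} = ⊤) :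
    Module.finrank ℚ K = n ∧ IsTotallyReal K ∧ Leopoldt K p :=
  ⟨finrank_eq hn a ha θ hθ hgen, (mkData hn a ha θ hθ p κ hp.out hκ hcong hgen).totallyReal,
    (mkData hn a ha θ hθ p κ hp.out hκ hcong hgen).leopoldt⟩

theorem exists_family (n : ℕ) (hn : 2 ≤ n) (S : Finset ℕ) (hS : ∀ p ∈ S, p.Prime)
    (ι : Type) [Fintype ι] (L : ι → Type) [∀ i, Field (L i)] [∀ i, NumberField (L i)] :
    ∃ (K : Type) (_ : Field K) (_ : NumberField K), Module.finrank ℚ K = n ∧ IsTotallyReal K ∧
      (3 ≤ n → ¬ IsGalois ℚ K) ∧ (∀ i, IsEmpty (K ≃+* L i)) ∧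
      ∀ p ∈ S, ∀ [Fact p.Prime], Leopoldt K p := by
  classical
  set q0 := (n - 1).minFac with hq0
  have hq0pos : 0 < q0 := Nat.minFac_pos _
  set B := (2 * (q0 * ∏ p ∈ S, p)) ^ n with hB
  have hB0 : B ≠ 0 := by
    apply pow_ne_zero
    exact mul_ne_zero two_ne_zero
      (mul_ne_zero hq0pos.ne' (Finset.prod_ne_zero_iff.2 fun p hp => (hS p hp).ne_zero))
  choose q hq hqB hhom using fun i => exists_hom (L i) B hB0
  set T : Finset ℕ := Finset.univ.image q with hT
  have hTp : ∀ r ∈ T, r.Prime := by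
    intro r hr
    obtain ⟨i, -, rfl⟩ := Finset.mem_image.1 hr
    exact hq i
  have hTB : ∀ r ∈ T, ¬ r ∣ B := by
    intro r hr
    obtain ⟨i, -, rfl⟩ := Finset.mem_image.1 hr
    exact hqB i
  -- residues without roots
  have hres : ∀ r : ℕ, ∃ c : ZMod r, r.Prime → ∀ x : ZMod r, x ^ (n - 1) * (x - c) ≠ 1 := by
    intro r
    by_cases hr : r.Prime
    · obtain ⟨c, hc⟩ := exists_noroot r n hr hn
      exact ⟨c, fun _ => hc⟩
    · exact ⟨0, fun h => absurd h hr⟩
  choose c hc using hres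
  obtain ⟨c', hc'⟩ := Nat.chineseRemainderOfFinset (fun r => (c r * (B : ZMod r)⁻¹).val) (fun r => r) T
    (fun r hr => (hTp r hr).ne_zero)
    (fun r hr s hs hrs => (Nat.coprime_primes (hTp r hr) (hTp s hs)).2 hrs)
  have hcc : ∀ r ∈ T, ((B * c' : ℕ) : ZMod r) = c r := by
    intro r hr
    have := Fact.mk (hTp r hr)
    have h1 := (ZMod.natCast_eq_natCast_iff _ _ _).2 (hc' r hr)
    rw [ZMod.natCast_zmod_val] at h1
    have hBr : (B : ZMod r) ≠ 0 := by
      rw [Ne, ZMod.natCast_eq_zero_iff]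
      exact hTB r hr
    push_cast
    rw [h1]
    field_simp
  set W := B * ∏ r ∈ T, r with hW
  have hW0 : 0 < W := by
    apply Nat.pos_of_ne_zero
    exact mul_ne_zero hB0 (Finset.prod_ne_zero_iff.2 fun p hp => (hTp p hp).ne_zero)
  set a : Fin n → ℤ := fun i => ((i * W + (if (i : ℕ) = n - 1 then B * c' else 0) : ℕ) : ℤ) with ha
  have hainj : Function.Injective a := by
    intro i j hij
    rw [ha] at hij
    simp only at hij
    have h1 : (i : ℕ) * W + (if (i : ℕ) = n - 1 then B * c' else 0)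
      = (j : ℕ) * W + (if (j : ℕ) = n - 1 then B * c' else 0) := by exact_mod_cast hij
    apply Fin.ext
    rcases lt_trichotomy (i : ℕ) (j : ℕ) with h | h | h
    · exfalso
      have h2 : (i : ℕ) * W < (j : ℕ) * W := Nat.mul_lt_mul_of_pos_right h hW0
      rw [if_neg (by have := j.2; omega)] at h1
      omega
    · exact h
    · exfalso
      have h2 : (j : ℕ) * W < (i : ℕ) * W := Nat.mul_lt_mul_of_pos_right h hW0
      rw [if_neg (c := (j : ℕ) = n - 1) (by have := i.2; omega)] at h1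
      omega
  have hdvd : ∀ i, (B : ℤ) ∣ a i := by
    intro i
    rw [ha]
    simp only
    have h1 : B ∣ (i : ℕ) * W + (if (i : ℕ) = n - 1 then B * c' else 0) := by
      apply dvd_add
      · exact Dvd.dvd.mul_left (Dvd.intro _ rfl) _
      · split_ifs
        · exact Dvd.intro _ rfl
        · exact dvd_zero _
    exact_mod_cast h1
  have hn1 : 1 ≤ n := by omega
  obtain ⟨K, hK1, hK2, θ, hθ, hgen⟩ := exists_field hn1 a hainj
  refine ⟨K, hK1, hK2, finrank_eq hn1 a hainj θ hθ hgen, ?_, ?_, ?_, ?_⟩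
  · -- totally real: use the prime `2`
    have h2 : Fact (Nat.Prime 2) := ⟨Nat.prime_two⟩
    refine (explicit_family 2 n n hn1 (Nat.lt_two_pow_self) a hainj (fun i j => ?_) K θ hθ hgen).2.1
    have h1 : 2 ^ n ∣ B := by
      rw [hB]
      exact pow_dvd_pow_of_dvd (Dvd.intro _ rfl) _
    have h2 : ((2 : ℕ) : ℤ) ^ n ∣ (B : ℤ) := by exact_mod_cast h1
    exact dvd_sub (dvd_trans h2 (hdvd i)) (dvd_trans h2 (hdvd j))
  · intro hn3
    have hq0p : q0.Prime := Nat.minFac_prime (by omega)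
    refine not_galois hn3 a hainj θ hθ hgen q0 hq0p (Nat.minFac_dvd _) fun i => ?_
    refine dvd_trans ?_ (hdvd i)
    rw [hB]
    exact_mod_cast Dvd.dvd.trans (Dvd.dvd.mul_left (Dvd.intro _ rfl) _) (dvd_pow_self _ (by omega))
  · intro i
    refine ⟨fun e => ?_⟩
    obtain ⟨ψ⟩ := hhom i
    have hr : q i ∈ T := Finset.mem_image_of_mem _ (Finset.mem_univ i)
    have := Fact.mk (hq i)
    let ρ : 𝓞 K →+* ZMod (q i) := ψ.comp (RingOfIntegers.mapRingEquiv e).toRingHom
    have hθint : IsIntegral ℤ θ := theta_integral hn1 a θ hθ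
    set x := ρ (th θ hθint) with hx
    have h1 : ∏ i, (th θ hθint - (a i : 𝓞 K)) = 1 := by
      apply FaithfulSMul.algebraMap_injective (𝓞 K) K
      rw [map_prod, map_one, ← hθ]
      refine Finset.prod_congr rfl fun i _ => ?_
      rw [map_sub, map_intCast, th_coe]
    have h2 := congrArg ρ h1
    rw [map_prod, map_one] at h2
    have h3 : ∀ j : Fin n, ρ (th θ hθint - (a j : 𝓞 K)) = if (j : ℕ) = n - 1 then x - c (q i) else x := by
      intro j
      rw [map_sub, map_intCast, ← hx, ha]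
      simp only
      have h4 : ((W : ℕ) : ZMod (q i)) = 0 := by
        rw [ZMod.natCast_eq_zero_iff, hW]
        exact Dvd.dvd.mul_left (Finset.dvd_prod_of_mem (fun r => r) hr) _
      split_ifs with h
      · rw [Int.cast_natCast, Nat.cast_add, Nat.cast_mul, h4, mul_zero, zero_add, hcc _ hr]
      · rw [Int.cast_natCast, Nat.cast_add, Nat.cast_mul, h4]
        simp
    rw [Finset.prod_congr rfl fun j _ => h3 j] at h2
    have h5 : ∏ j : Fin n, (if (j : ℕ) = n - 1 then x - c (q i) else x) = x ^ (n - 1) * (x - c (q i)) := by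
      obtain ⟨m, rfl⟩ : ∃ m, n = m + 1 := ⟨n - 1, by omega⟩
      rw [Fin.prod_univ_castSucc]
      simp only [Fin.val_castSucc, Fin.val_last, Nat.add_sub_cancel, if_true]
      congr 1
      rw [Finset.prod_congr rfl fun j _ => if_neg (by have := j.2; omega)]
      simp
    rw [h5] at h2
    exact hc (q i) (hq i) x h2
  · intro p hpS hp
    refine (explicit_family p n n hn1 (Nat.lt_pow_self hp.out.one_lt) a hainj (fun i j => ?_) K θ hθ hgen).2.2
    have h1 : p ^ n ∣ B := by
      rw [hB]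
      exact pow_dvd_pow_of_dvd
        (Dvd.dvd.mul_left (Dvd.dvd.mul_left (Finset.dvd_prod_of_mem (fun r => r) hpS) _) _) _
    have h2 : (p : ℤ) ^ n ∣ (B : ℤ) := by exact_mod_cast h1
    exact dvd_sub (dvd_trans h2 (hdvd i)) (dvd_trans h2 (hdvd j))

end Pool.Agent.H637R2.Leo
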